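import Pool.Agent.ZDO.Per

/-!
# The Jacobian determinant of a dominant rational map is not zero
-/

set_option autoImplicit false

namespace Pool.Agent.ZDO

open MvPolynomial Pool.Agent.Lib.MP_16285c_ag

universe u

variable {K : Type u} [Field K] {n : ℕ}

/-- Extension of the derivation `X i ↦ v i` to the rational functions. -/
theorem exists_derivation (v : Fin n → FractionRing (MvPolynomial (Fin n) K)) :
    ∃ D : Derivation K (FractionRing (MvPolynomial (Fin n) K))
        (FractionRing (MvPolynomial (Fin n) K)),
      ∀ G : MvPolynomial (Fin n) K,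
        D (algebraMap (MvPolynomial (Fin n) K) (FractionRing (MvPolynomial (Fin n) K)) G) =
          ∑ l, algebraMap (MvPolynomial (Fin n) K) (FractionRing (MvPolynomial (Fin n) K))
            (pderiv l G) * v l := by
  classical
  have h1 : Algebra.FormallyEtale (MvPolynomial (Fin n) K)
      (FractionRing (MvPolynomial (Fin n) K)) :=
    Algebra.FormallyEtale.of_isLocalization (nonZeroDivisors (MvPolynomial (Fin n) K))
  refine ⟨(((Derivation.liftKaehlerDifferential (MvPolynomial.mkDerivation K v)).liftBaseChange
    (FractionRing (MvPolynomial (Fin n) K))) ∘ₗ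
      ((KaehlerDifferential.tensorKaehlerEquivOfFormallyEtale K (MvPolynomial (Fin n) K)
        (FractionRing (MvPolynomial (Fin n) K))).symm :
        Ω[FractionRing (MvPolynomial (Fin n) K)⁄K] →ₗ[FractionRing (MvPolynomial (Fin n) K)]
          TensorProduct (MvPolynomial (Fin n) K) (FractionRing (MvPolynomial (Fin n) K))
            Ω[MvPolynomial (Fin n) K⁄K])).compDer
      (KaehlerDifferential.D K (FractionRing (MvPolynomial (Fin n) K))), fun G => ?_⟩
  change (LinearMap.liftBaseChange _ ((mkDerivation K) v).liftKaehlerDifferential)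
    ((KaehlerDifferential.tensorKaehlerEquivOfFormallyEtale K (MvPolynomial (Fin n) K)
        (FractionRing (MvPolynomial (Fin n) K))).symm
      (KaehlerDifferential.D K _ (algebraMap (MvPolynomial (Fin n) K)
        (FractionRing (MvPolynomial (Fin n) K)) G))) = _
  rw [KaehlerDifferential.tensorKaehlerEquivOfFormallyEtale_symm_D_algebraMap,
    LinearMap.liftBaseChange_tmul, one_smul, Derivation.liftKaehlerDifferential_comp_D]
  induction G using MvPolynomial.induction_on with
  | C a =>
    rw [derivation_C]
    refine (Finset.sum_eq_zero fun l _ => ?_).symm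
    rw [pderiv_C, map_zero, zero_mul]
  | add P Q hP hQ =>
    rw [map_add, hP, hQ, ← Finset.sum_add_distrib]
    refine Finset.sum_congr rfl fun l _ => ?_
    rw [map_add, map_add, add_mul]
  | mul_X P i hP =>
    rw [Derivation.leibniz, hP, mkDerivation_X]
    have h4 : ∀ l, algebraMap (MvPolynomial (Fin n) K) (FractionRing (MvPolynomial (Fin n) K))
        (pderiv l (P * X i)) * v l = algebraMap (MvPolynomial (Fin n) K)
          (FractionRing (MvPolynomial (Fin n) K)) (X i) * (algebraMap (MvPolynomial (Fin n) K)
            (FractionRing (MvPolynomial (Fin n) K)) (pderiv l P) * v l) +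
          (if l = i then algebraMap (MvPolynomial (Fin n) K)
            (FractionRing (MvPolynomial (Fin n) K)) P * v i else 0) := by
      intro l
      rw [pderiv_mul, pderiv_X, map_add, map_mul, map_mul]
      by_cases h : l = i
      · subst h
        rw [Pi.single_eq_same, map_one, if_pos rfl]
        ring
      · rw [if_neg h, Pi.single_eq_of_ne (Ne.symm h), map_zero]
        ring
    rw [Finset.sum_congr rfl fun l _ => h4 l, Finset.sum_add_distrib, ← Finset.mul_sum,
      Finset.sum_ite_eq' Finset.univ i, if_pos (Finset.mem_univ i), Algebra.smul_def,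
      Algebra.smul_def, add_comm]

/-- A derivation of an algebraic extension in characteristic zero vanishes if it vanishes on the base. -/
theorem derivation_eq_zero {L : Type u} [Field L] [CharZero L] [Algebra K L] (D : Derivation K L L)
    (S : Subfield L) (hS : ∀ z ∈ S, D z = 0) (halg : ∀ z : L, IsAlgebraic S z) (z : L) : D z = 0 := by
  let D' : Derivation S L L := Derivation.mk'
    { toFun := fun z => D z
      map_add' := fun a b => map_add D a b
      map_smul' := by
        intro a b
        rw [RingHom.id_apply, Algebra.smul_def, Algebra.smul_def, Derivation.leibniz]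
        have h1 : D (algebraMap S L a) = 0 := hS _ a.2
        rw [h1, smul_zero, add_zero, smul_eq_mul] }
    (fun a b => D.leibniz a b)
  have hD' : ∀ z, D' z = D z := fun z => rfl
  have h1 := D'.map_aeval (minpoly S z) z
  rw [minpoly.aeval, map_zero, hD'] at h1
  have : CharZero S := ⟨fun a b h => by
    have h2 : ((a : ℕ) : L) = (b : L) := by exact_mod_cast congrArg (Subtype.val) h
    exact_mod_cast h2⟩
  have h2 : (minpoly S z).Separable := (minpoly.irreducible (halg z).isIntegral).separable
  have h3 := h2.aeval_derivative_ne_zero (minpoly.aeval S z)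
  rw [smul_eq_mul, eq_comm, mul_eq_zero] at h1
  exact h1.resolve_left h3

/-- `K(x₁, …, xₙ)` is algebraic over the image of an endomorphism. -/
theorem algebraic_range (σ : FractionRing (MvPolynomial (Fin n) K) →ₐ[K]
      FractionRing (MvPolynomial (Fin n) K)) (z : FractionRing (MvPolynomial (Fin n) K)) :
    IsAlgebraic σ.fieldRange.toSubfield z := by
  have h1 : AlgebraicIndependent K (fun i : Fin n => algebraMap (MvPolynomial (Fin n) K)
      (FractionRing (MvPolynomial (Fin n) K)) (X i)) := by
    have h := (algebraicIndependent_X (Fin n) K).map'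
      (f := IsScalarTower.toAlgHom K (MvPolynomial (Fin n) K)
        (FractionRing (MvPolynomial (Fin n) K)))
      (IsFractionRing.injective (MvPolynomial (Fin n) K) (FractionRing (MvPolynomial (Fin n) K)))
    exact h
  have h2 : AlgebraicIndependent K (fun i : Fin n => σ (algebraMap (MvPolynomial (Fin n) K)
      (FractionRing (MvPolynomial (Fin n) K)) (X i))) := h1.map' σ.injective
  have h3 : Algebra.trdeg K (FractionRing (MvPolynomial (Fin n) K)) = n := by
    have h4 := trdeg_add_eq K (MvPolynomial (Fin n) K)
      (A := FractionRing (MvPolynomial (Fin n) K))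
    have h5 : Algebra.IsAlgebraic (MvPolynomial (Fin n) K)
      (FractionRing (MvPolynomial (Fin n) K)) :=
        IsLocalization.isAlgebraic _ (nonZeroDivisors (MvPolynomial (Fin n) K))
    rw [trdeg_eq_zero (R := MvPolynomial (Fin n) K), add_zero,
      MvPolynomial.trdeg_of_isDomain] at h4
    rw [← h4]
    simp
  have h4 : IsTranscendenceBasis K (fun i : Fin n => σ (algebraMap (MvPolynomial (Fin n) K)
      (FractionRing (MvPolynomial (Fin n) K)) (X i))) := by
    refine h2.isTranscendenceBasis_of_lift_trdeg_le_of_finite ?_
    rw [h3]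
    simp
  have h5 := h4.isAlgebraic
  obtain ⟨p, hp, hpz⟩ := h5.isAlgebraic z
  have hle : ∀ w ∈ Algebra.adjoin K (Set.range fun i : Fin n => σ (algebraMap (MvPolynomial (Fin n) K)
      (FractionRing (MvPolynomial (Fin n) K)) (X i))), w ∈ σ.fieldRange.toSubfield := by
    intro w hw
    have h6 : Algebra.adjoin K (Set.range fun i : Fin n => σ (algebraMap (MvPolynomial (Fin n) K)
      (FractionRing (MvPolynomial (Fin n) K)) (X i))) ≤ σ.fieldRange.toSubalgebra := by
      refine Algebra.adjoin_le ?_
      rintro _ ⟨i, rfl⟩
      exact ⟨_, rfl⟩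
    exact h6 hw
  let ι : Algebra.adjoin K (Set.range fun i : Fin n => σ (algebraMap (MvPolynomial (Fin n) K)
      (FractionRing (MvPolynomial (Fin n) K)) (X i))) →+* σ.fieldRange.toSubfield :=
    { toFun := fun w => ⟨w, hle w w.2⟩
      map_one' := rfl
      map_mul' := fun _ _ => rfl
      map_zero' := rfl
      map_add' := fun _ _ => rfl }
  refine ⟨p.map ι, ?_, ?_⟩
  · have hinj : Function.Injective ι := fun a b h =>
      Subtype.ext (congrArg (fun w : σ.fieldRange.toSubfield => (w : FractionRing (MvPolynomial (Fin n) K))) h)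
    exact (Polynomial.map_ne_zero_iff hinj).2 hp
  · rw [Polynomial.aeval_def, Polynomial.eval₂_map, ← hpz, Polynomial.aeval_def]
    rfl

/-- **The Jacobian of a dominant rational map in characteristic zero.** -/
theorem jac_ne_zero [CharZero K] (f : RM K n) (σ : FractionRing (MvPolynomial (Fin n) K) →ₐ[K]
      FractionRing (MvPolynomial (Fin n) K))
    (hσ : ∀ i, f.den i ≠ 0 ∧ σ (algebraMap (MvPolynomial (Fin n) K)
      (FractionRing (MvPolynomial (Fin n) K)) (X i)) * algebraMap (MvPolynomial (Fin n) K)
      (FractionRing (MvPolynomial (Fin n) K)) (f.den i) = algebraMap (MvPolynomial (Fin n) K)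
      (FractionRing (MvPolynomial (Fin n) K)) (f.num i)) : Jc f ≠ 0 := by
  classical
  intro h0
  set φ := algebraMap (MvPolynomial (Fin n) K) (FractionRing (MvPolynomial (Fin n) K)) with hφ
  have hinj : Function.Injective φ :=
    IsFractionRing.injective (MvPolynomial (Fin n) K) (FractionRing (MvPolynomial (Fin n) K))
  let W : Matrix (Fin n) (Fin n) (FractionRing (MvPolynomial (Fin n) K)) :=
    Matrix.of fun i l => φ (Wd f i l)
  have hW : W.det = 0 := by
    have h1 := congrArg φ h0
    rw [Jc, RingHom.map_det, map_zero] at h1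
    exact h1
  obtain ⟨v, hv0, hv⟩ := Matrix.exists_mulVec_eq_zero_iff.2 hW
  obtain ⟨D, hD⟩ := exists_derivation v
  have hchar : CharZero (FractionRing (MvPolynomial (Fin n) K)) :=
    charZero_of_injective_algebraMap (algebraMap K (FractionRing (MvPolynomial (Fin n) K))).injective
  -- `D` kills the functions `f i`
  have h1 : ∀ i, D (σ (φ (X i))) = 0 := by
    intro i
    obtain ⟨hd, he⟩ := hσ i
    have h2 := congrArg D he
    rw [Derivation.leibniz, hD, hD, smul_eq_mul, smul_eq_mul] at h2
    have h3 : ∑ l, φ (Wd f i l) * v l = 0 := congrFun hv i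
    have h4 : ∑ l, φ (Wd f i l) * v l = (∑ l, φ (pderiv l (f.num i)) * v l) * φ (f.den i) -
        φ (f.num i) * ∑ l, φ (pderiv l (f.den i)) * v l := by
      rw [Finset.sum_mul, Finset.mul_sum, ← Finset.sum_sub_distrib]
      refine Finset.sum_congr rfl fun l _ => ?_
      rw [Wd, map_sub, map_mul, map_mul]
      ring
    rw [h3] at h4
    have h5 : D (σ (φ (X i))) * (φ (f.den i) * φ (f.den i)) = 0 := by
      have h6 : φ (f.num i) = σ (φ (X i)) * φ (f.den i) := he.symm
      rw [h6] at h4
      linear_combination (φ (f.den i)) * h2 - h4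
    have h6 : φ (f.den i) ≠ 0 := by
      intro h
      exact hd (hinj (h.trans (map_zero φ).symm))
    exact (mul_eq_zero.1 h5).resolve_right (mul_ne_zero h6 h6)
  -- so it kills the image of `σ`
  have h2 : ∀ G : MvPolynomial (Fin n) K, D (σ (φ G)) = 0 := by
    intro G
    induction G using MvPolynomial.induction_on with
    | C a =>
      have h3 : φ (C a) = algebraMap K (FractionRing (MvPolynomial (Fin n) K)) a := by
        rw [hφ, IsScalarTower.algebraMap_apply K (MvPolynomial (Fin n) K)
          (FractionRing (MvPolynomial (Fin n) K)), MvPolynomial.algebraMap_eq]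
      rw [h3, σ.commutes, D.map_algebraMap]
    | add P Q hP hQ => rw [map_add, map_add, map_add, hP, hQ, add_zero]
    | mul_X P i hP => rw [map_mul, map_mul, Derivation.leibniz, hP, h1, smul_zero, smul_zero, add_zero]
  have h3 : ∀ z ∈ σ.fieldRange.toSubfield, D z = 0 := by
    rintro z hz
    obtain ⟨w, hw⟩ : ∃ w, σ w = z := hz
    obtain ⟨a, b, hb, hab⟩ := IsFractionRing.div_surjective (A := MvPolynomial (Fin n) K) w
    rw [← hw, ← hab, map_div₀, Derivation.leibniz_div, ← hφ, h2, h2, smul_zero, smul_zero, sub_zero,
      smul_zero]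
  have h4 : ∀ i, v i = 0 := by
    intro i
    have h5 := derivation_eq_zero D _ h3 (algebraic_range σ) (φ (X i))
    rw [hD, Finset.sum_eq_single i] at h5
    · rw [pderiv_X_self, map_one, one_mul] at h5
      exact h5
    · intro l _ hl
      rw [pderiv_X_of_ne (Ne.symm hl), map_zero, zero_mul]
    · intro h
      exact absurd (Finset.mem_univ i) h
  exact hv0 (funext h4)

end Pool.Agent.ZDO
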