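import Pool.Agent.ZDO.Clo
import Pool.Agent.ZDO.Fmt2

/-!
# Closedness of orbits over a Frobenius point, second version

The field need not be algebraic over `ℚ`: the Frobenius point has to have coordinates in a finite field.
-/

set_option autoImplicit false

namespace Pool.Agent.ZDO

open MvPolynomial Pool.Agent.Lib.MP_16285c_ag

universe u

theorem closed_place2 {k : Type u} [Field k] (V : ValuationSubring k) (S : Finset k) (R₀ : Subring k)
    (hR₀ : R₀ = Subring.closure (S : Set k)) (hR : ∀ r ∈ R₀, r ∈ V) (p s : ℕ) [Fact p.Prime]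
    [CharP (IsLocalRing.ResidueField V) p] (hq : ∀ r, red V R₀ hR r ^ p ^ s = red V R₀ hR r)
    (hs : 1 ≤ s) (n : ℕ) (f : RM R₀ n)
    (a : Fin n → IsLocalRing.ResidueField V) (r₀ : ℕ) (hr₀ : 1 ≤ r₀) (har : ∀ i, a i ^ p ^ r₀ = a i)
    (ha : FrobPt (f.map (red V R₀ hR)) (p ^ s) a)
    (hJ : eval a (Jc (f.map (red V R₀ hR))) ≠ 0) :
    ∃ N, 1 ≤ N ∧ ∀ x : ℕ → Fin n → k, (f.map R₀.subtype).Orb x → (∀ i, Lies V (x 0 i) (a i)) →
      ClN N p x := by
  classical
  set ψ := red V R₀ hR with hψ
  let v : Fin n → IsLocalRing.ResidueField V := fun i => (eval a ((f.map ψ).den i))⁻¹ ^ 2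
  let M₀ : Matrix (Fin n) (Fin n) (IsLocalRing.ResidueField V) :=
    Matrix.of fun i l => v i * eval a (Wd (f.map ψ) i l)
  have hdet : M₀.det ≠ 0 := by
    have h1 : M₀.det = (∏ i, v i) * eval a (Jc (f.map ψ)) := by
      rw [Jc, RingHom.map_det]
      exact Matrix.det_mul_column v _
    rw [h1]
    refine mul_ne_zero (Finset.prod_ne_zero_iff.2 fun i _ => ?_) hJ
    exact pow_ne_zero _ (inv_ne_zero (ha i).1)
  have hsucc : ∀ (i : Fin n) (j : ℕ), a i ^ (p ^ s) ^ (j + 1) = (a i ^ (p ^ s) ^ j) ^ p ^ s := by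
    intro i j
    rw [pow_succ (p ^ s) j, pow_mul]
  have hev : ∀ (j : ℕ) (G : MvPolynomial (Fin n) R₀),
      eval (fun i => a i ^ (p ^ s) ^ j) (map ψ G) = (eval a (map ψ G)) ^ (p ^ s) ^ j := by
    intro j G
    induction j with
    | zero => simp
    | succ j ih =>
      simp only [hsucc]
      rw [hψ, LiftAux.eval_frob p s hq, ← hψ, ih, pow_succ (p ^ s) j, pow_mul]
  have hmul : ∀ (w : IsLocalRing.ResidueField V) (m r : ℕ), w ^ p ^ m = w → w ^ p ^ (m * r) = w := by
    intro w m r hw
    induction r with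
    | zero => rw [mul_zero, pow_zero, pow_one]
    | succ r ih => rw [mul_add, mul_one, pow_add, pow_mul, ih, hw]
  have har' : ∀ i, a i ^ p ^ (s * r₀) = a i := fun i => by
    rw [mul_comm]
    exact hmul _ _ _ (har i)
  have hev₀ : ∀ G : MvPolynomial (Fin n) R₀,
      (eval a (map ψ G)) ^ p ^ (s * r₀) = eval a (map ψ G) := by
    intro G
    have h1 := hev r₀ G
    have h2 : (fun i => a i ^ (p ^ s) ^ r₀) = a := by
      funext i
      rw [← pow_mul]
      exact har' i
    rw [h2, ← pow_mul] at h1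
    exact h1.symm
  obtain ⟨N, hN, hNa, hNM⟩ := finMat2 p s M₀ hdet a (s * r₀) (Nat.mul_pos hs hr₀) (by
    intro i l
    show (v i * eval a (Wd (f.map ψ) i l)) ^ p ^ (s * r₀) = v i * eval a (Wd (f.map ψ) i l)
    have h1 : (eval a ((f.map ψ).den i)) ^ p ^ (s * r₀) = eval a ((f.map ψ).den i) := hev₀ (f.den i)
    rw [mul_pow, map_Wd, hev₀]
    congr 1
    show ((eval a ((f.map ψ).den i))⁻¹ ^ 2) ^ p ^ (s * r₀) = (eval a ((f.map ψ).den i))⁻¹ ^ 2
    rw [pow_right_comm, inv_pow, h1]) har'
  refine ⟨N, hN, fun x hx hx0 => ?_⟩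
  -- the orbit lies over the Frobenius twists of `a`
  have hL : ∀ j i, Lies V (x j i) (a i ^ (p ^ s) ^ j) := by
    obtain ⟨x', h0, hx', hL, -⟩ := liftP k V R₀ hR p s hq n f a ha (x 0) hx0
    have h1 : x' = x := (f.map R₀.subtype).orb_unique x' x hx' hx h0
    rw [← h1]
    exact hL
  -- the Noetherian ring
  have hSV : ∀ t ∈ S ∪ Finset.univ.image (x 0), t ∈ V := by
    intro t ht
    rw [Finset.mem_union, Finset.mem_image] at ht
    rcases ht with ht | ⟨i, -, rfl⟩
    · refine hR t ?_
      rw [hR₀]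
      exact Subring.subset_closure ht
    · exact (hx0 i).1
  obtain ⟨A, hTA, hAV, hno, hinv⟩ := noethSub V _ hSV
  have hRA : R₀ ≤ A := by
    rw [hR₀, Subring.closure_le]
    intro t ht
    exact hTA t (Finset.mem_union_left _ ht)
  set ρ := red V A hAV with hρ
  have hρval : ∀ (z : A) (b : IsLocalRing.ResidueField V), Lies V (z : k) b → ρ z = b := by
    rintro z b ⟨h1, h2⟩
    exact h2
  have hunit : ∀ z : A, ρ z ≠ 0 → IsUnit z := by
    intro z hz
    have h1 : IsUnit (inc V A hAV z) := by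
      rw [← IsLocalRing.residue_ne_zero_iff_isUnit]
      exact hz
    obtain ⟨w, hw⟩ := h1.exists_right_inv
    have hw' : (z : k) * (w : k) = 1 := congrArg Subtype.val hw
    have h0 : (z : k) ≠ 0 := left_ne_zero_of_mul_eq_one hw'
    have h2 : (z : k)⁻¹ = w := inv_eq_of_mul_eq_one_right hw'
    have h3 : (z : k)⁻¹ ∈ A := hinv z z.2 h0 (by rw [h2]; exact w.2)
    refine IsUnit.of_mul_eq_one (⟨(z : k)⁻¹, h3⟩ : A) ?_
    apply Subtype.ext
    exact mul_inv_cancel₀ h0
  let ι : R₀ →+* A := Subring.inclusion hRA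
  have hρι : ρ.comp ι = ψ := by
    ext r
    rfl
  have hsub : A.subtype.comp ι = R₀.subtype := by
    ext r
    rfl
  -- evaluations
  have hevk : ∀ (y : Fin n → A) (G : MvPolynomial (Fin n) R₀),
      ((eval y (map ι G) : A) : k) = eval (fun i => (y i : k)) (map R₀.subtype G) := by
    intro y G
    have h1 : A.subtype (eval y (map ι G)) = eval (fun i => A.subtype (y i)) (map R₀.subtype G) := by
      rw [eval_map, hom_eval₂, eval_map, hsub]
    exact h1
  have hevρ : ∀ (y : Fin n → A) (G : MvPolynomial (Fin n) R₀),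
      ρ (eval y (map ι G)) = eval (fun i => ρ (y i)) (map ψ G) := by
    intro y G
    rw [eval_map, hom_eval₂, eval_map, hρι]
  have hmem : ∀ j i, x j i ∈ A := by
    intro j
    induction j with
    | zero =>
      intro i
      exact hTA _ (Finset.mem_union_right _ (Finset.mem_image_of_mem _ (Finset.mem_univ i)))
    | succ j ih =>
      intro i
      let y : Fin n → A := fun i => ⟨x j i, ih i⟩
      have h1 : ρ (eval y (map ι (f.den i))) ≠ 0 := by
        rw [hevρ]
        have h2 : (fun i => ρ (y i)) = fun i => a i ^ (p ^ s) ^ j := by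
          funext i
          exact hρval _ _ (hL j i)
        rw [h2, hev]
        exact pow_ne_zero _ (ha i).1
      obtain ⟨w, hw⟩ := (hunit _ h1).exists_right_inv
      have hw' : ((eval y (map ι (f.den i)) : A) : k) * (w : k) = 1 := congrArg Subtype.val hw
      rw [hevk] at hw'
      have h3 := (hx j i).2
      have h4 : x (j + 1) i = ((eval y (map ι (f.num i)) : A) : k) * (w : k) := by
        rw [hevk]
        have h5 : x (j + 1) i * eval (x j) (map R₀.subtype (f.den i)) =
            eval (x j) (map R₀.subtype (f.num i)) := h3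
        have h6 : (fun i => ((y i : A) : k)) = x j := rfl
        rw [h6] at hw' ⊢
        rw [← h5, mul_assoc, hw', mul_one]
      rw [h4]
      exact A.mul_mem (Subtype.prop _) w.2
  let xA : ℕ → Fin n → A := fun j i => ⟨x j i, hmem j i⟩
  have hρx : ∀ j, (fun i => ρ (xA j i)) = fun i => a i ^ (p ^ s) ^ j := by
    intro j
    funext i
    exact hρval _ _ (hL j i)
  have hρG : ∀ j (G : MvPolynomial (Fin n) R₀),
      ρ (eval (xA j) (map ι G)) = (eval a (map ψ G)) ^ (p ^ s) ^ j := by
    intro j G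
    rw [hevρ, hρx, hev]
  have hxA : ∀ j i, xA (j + 1) i * eval (xA j) ((f.map ι).den i) = eval (xA j) ((f.map ι).num i) := by
    intro j i
    apply Subtype.ext
    have h5 : x (j + 1) i * eval (x j) (map R₀.subtype (f.den i)) =
        eval (x j) (map R₀.subtype (f.num i)) := (hx j i).2
    show x (j + 1) i * ((eval (xA j) (map ι (f.den i)) : A) : k) =
      ((eval (xA j) (map ι (f.num i)) : A) : k)
    rw [hevk, hevk]
    exact h5
  have hu : ∀ j i, IsUnit (eval (xA j) ((f.map ι).den i)) := by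
    intro j i
    refine hunit _ ?_
    show ρ (eval (xA j) (map ι (f.den i))) ≠ 0
    rw [hρG]
    exact pow_ne_zero _ (ha i).1
  choose w hw using fun j i => (hu j i).exists_right_inv
  let D : ℕ → Matrix (Fin n) (Fin n) A := fun j =>
    Matrix.of fun i l => w j i ^ 2 * eval (xA j) (Wd (f.map ι) i l)
  have hD : ∀ j i l, D j i l * eval (xA j) ((f.map ι).den i) ^ 2 = eval (xA j) (Wd (f.map ι) i l) := by
    intro j i l
    show w j i ^ 2 * eval (xA j) (Wd (f.map ι) i l) * eval (xA j) ((f.map ι).den i) ^ 2 = _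
    have h1 := hw j i
    calc w j i ^ 2 * eval (xA j) (Wd (f.map ι) i l) * eval (xA j) ((f.map ι).den i) ^ 2
        = (eval (xA j) ((f.map ι).den i) * w j i) ^ 2 * eval (xA j) (Wd (f.map ι) i l) := by ring
      _ = _ := by rw [h1, one_pow, one_mul]
  have hρD : ∀ j, (D j).map ρ = M₀.map fun z => z ^ (p ^ s) ^ j := by
    intro j
    ext i l
    show ρ (w j i ^ 2 * eval (xA j) (Wd (f.map ι) i l)) =
      (v i * eval a (Wd (f.map ψ) i l)) ^ (p ^ s) ^ j
    have h1 : ρ (w j i) = (eval a ((f.map ψ).den i))⁻¹ ^ (p ^ s) ^ j := by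
      have h2 := congrArg ρ (hw j i)
      rw [map_mul, map_one] at h2
      have h3 : ρ (eval (xA j) ((f.map ι).den i)) = (eval a ((f.map ψ).den i)) ^ (p ^ s) ^ j :=
        hρG j (f.den i)
      rw [h3] at h2
      rw [inv_pow]
      exact eq_inv_of_mul_eq_one_right h2
    rw [map_mul, map_pow, h1, map_Wd, map_Wd, hρG, mul_pow]
    congr 1
    show _ = ((eval a ((f.map ψ).den i))⁻¹ ^ 2) ^ (p ^ s) ^ j
    exact pow_right_comm _ _ _
  have hrec := recurrence (f.map ι) (RingHom.ker ρ) p
    (by rw [RingHom.mem_ker, map_natCast]; exact CharP.cast_eq_zero _ _) xA hxA hu D hD N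
    (by
      intro j i
      rw [RingHom.mem_ker, map_sub, hρval _ _ (hL (j + N) i), hρval _ _ (hL j i), hNa, sub_self])
    (by
      intro j i l
      have h1 := Pr_map ρ D j N
      have h2 : (fun i => (D i).map ρ) = fun j => M₀.map fun z => z ^ (p ^ s) ^ j := funext hρD
      rw [h2, hNM] at h1
      have h3 := congrFun (congrFun h1 i) l
      rw [Matrix.map_apply] at h3
      rw [RingHom.mem_ker, Matrix.sub_apply, map_sub, h3, Matrix.one_apply, Matrix.one_apply]
      split_ifs
      · rw [map_one, sub_self]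
      · rw [map_zero, sub_self])
  intro G j hG
  exact closed_field A (RingHom.ker ρ) (RingHom.ker_ne_top ρ) xA N p hrec G j hG

end Pool.Agent.ZDO
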