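import Pool.Agent.ZDO.Cone
import Pool.Agent.ZDO.Clo2
import Pool.Agent.Lib.MP_16285c_ag.Closed
import Pool.Agent.Lib.MP_16285c_ag.Spread

/-!
# Frobenius places over any algebraically closed field of characteristic zero

For every dominant rational self-map `f` of affine `n`-space over an algebraically closed field of characteristic zero and every
`B ≠ 0` there are a place and a Frobenius point of the reduction of `f`, with coordinates in a finite field, such that all the orbits
over this point are well-defined, avoid `B = 0` and have the closedness property `ClN`.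
-/

set_option autoImplicit false

namespace Pool.Agent.ZDO

open MvPolynomial Pool.Agent.Lib.MP_16285c_ag

universe u

/-- An element which is algebraic over the prime field lies in a finite field. -/
theorem alg_pow (p : ℕ) [Fact p.Prime] {κ : Type*} [Field κ] [Algebra (ZMod p) κ] (z : κ)
    (h4 : IsAlgebraic (ZMod p) z) : ∃ m, 1 ≤ m ∧ z ^ p ^ m = z := by
  have h5 : FiniteDimensional (ZMod p) (IntermediateField.adjoin (ZMod p) {z}) :=
    IntermediateField.adjoin.finiteDimensional h4.isIntegral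
  have h6 : Finite (IntermediateField.adjoin (ZMod p) {z}) := Module.finite_of_finite (ZMod p)
  have h7 := Fintype.ofFinite (IntermediateField.adjoin (ZMod p) {z})
  have h8 : CharP (IntermediateField.adjoin (ZMod p) {z}) p :=
    charP_of_injective_algebraMap (algebraMap (ZMod p) _).injective p
  obtain ⟨m, -, hm⟩ := FiniteField.card (IntermediateField.adjoin (ZMod p) {z}) p
  refine ⟨m, m.2, ?_⟩
  have h9 := FiniteField.pow_card (⟨z, IntermediateField.mem_adjoin_simple_self (ZMod p) _⟩ :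
      IntermediateField.adjoin (ZMod p) {z})
  rw [hm] at h9
  exact congrArg Subtype.val h9

theorem box2 {k : Type u} [Field k] [IsAlgClosed k] [CharZero k] {n : ℕ}
    (f : RM k n) (hden : ∀ i, f.den i ≠ 0) (hinj : Function.Injective f.comp) (hJ : Jc f ≠ 0)
    (B : MvPolynomial (Fin n) k) (hB : B ≠ 0) (p₀ : ℕ) :
    ∃ (V : ValuationSubring k) (p : ℕ) (a : Fin n → IsLocalRing.ResidueField V) (N : ℕ),
      p.Prime ∧ p₀ < p ∧ CharP (IsLocalRing.ResidueField V) p ∧ 1 ≤ N ∧
      (∃ r : ℕ, 1 ≤ r ∧ ∀ i, a i ^ (p ^ r) = a i) ∧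
      ∀ x₀ : Fin n → k, (∀ i, Lies V (x₀ i) (a i)) → ∃ x : ℕ → Fin n → k, x 0 = x₀ ∧ f.Orb x ∧
        (∀ m, eval (x m) B ≠ 0) ∧ ClN N p x := by
  classical
  -- the ring of definition
  have hEv : SpreadAux.Ev fun R₀ : Subring k => (∃ (f₀ : RM R₀ n) (B₀ : MvPolynomial (Fin n) R₀),
      f₀.map R₀.subtype = f ∧ map R₀.subtype B₀ = B) := by
    have h1 : SpreadAux.Ev fun R₀ : Subring k => ∀ i ∈ (Finset.univ : Finset (Fin n)),
        (∃ G₀ : MvPolynomial (Fin n) R₀, map R₀.subtype G₀ = f.num i) ∧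
          ∃ G₀ : MvPolynomial (Fin n) R₀, map R₀.subtype G₀ = f.den i := by
      induction (Finset.univ : Finset (Fin n)) using Finset.induction_on with
      | empty => exact ⟨∅, fun R₀ _ i hi => absurd hi (Finset.notMem_empty i)⟩
      | insert i s _ ih =>
        refine (((SpreadAux.liftM (f.num i)).and (SpreadAux.liftM (f.den i))).and ih).mono ?_
        rintro R₀ ⟨h2, h3⟩ j hj
        rw [Finset.mem_insert] at hj
        rcases hj with rfl | hj
        · exact h2
        · exact h3 j hj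
    refine (h1.and (SpreadAux.liftM B)).mono ?_
    rintro R₀ ⟨h2, B₀, hB₀⟩
    choose num hnum using fun i => (h2 i (Finset.mem_univ i)).1
    choose den hden using fun i => (h2 i (Finset.mem_univ i)).2
    refine ⟨⟨num, den⟩, B₀, ?_, hB₀⟩
    cases f
    rw [RM.map]
    congr 1
    · funext i
      exact hnum i
    · funext i
      exact hden i
  obtain ⟨S, hS⟩ := hEv
  have hPl := fun S₂ => placeP k S S₂
  obtain ⟨R₀, hR₀⟩ : ∃ R₀ : Subring k, R₀ = Subring.closure (S : Set k) := ⟨_, rfl⟩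
  rw [← hR₀] at hPl
  obtain ⟨f₀, B₀, hf₀, hB₀⟩ := hS R₀ (by rw [hR₀]; exact Subring.subset_closure)
  have hinjM : Function.Injective
      (map R₀.subtype : MvPolynomial (Fin n) R₀ →+* MvPolynomial (Fin n) k) :=
    map_injective _ Subtype.val_injective
  -- the polynomial which is not allowed to vanish
  obtain ⟨G₀, hG₀⟩ : ∃ G₀, G₀ = B₀ * dd f₀ * Jc f₀ := ⟨_, rfl⟩
  have hG : map R₀.subtype G₀ = B * dd f * Jc f := by
    rw [hG₀, map_mul, map_mul, hB₀, ← dd_map, ← map_Jc, hf₀]
  have hGne : map R₀.subtype G₀ ≠ 0 := by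
    rw [hG]
    exact mul_ne_zero (mul_ne_zero hB (Finset.prod_ne_zero_iff.2 fun i _ => hden i)) hJ
  obtain ⟨e', he'⟩ : ∃ e', e' = G₀.totalDegree := ⟨_, rfl⟩
  obtain ⟨e, he0, he1⟩ : ∃ e, (dd f₀).totalDegree ≤ e ∧ ∀ i, (nn f₀ i).totalDegree ≤ e := by
    refine ⟨(dd f₀).totalDegree + ∑ i, (nn f₀ i).totalDegree, by omega, fun i => ?_⟩
    have := Finset.single_le_sum (f := fun i => (nn f₀ i).totalDegree)
      (fun _ _ => Nat.zero_le _) (Finset.mem_univ i)
    omega
  obtain ⟨H₀, hH₀⟩ : ∃ H₀, H₀ = (bind₁ (cn e f₀))^[n + 1] (X 0 * hz e' G₀) := ⟨_, rfl⟩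
  have hmapH : ∀ {T : Type u} [CommRing T] (φ : R₀ →+* T), map φ H₀ =
      (bind₁ (cn e (f₀.map φ)))^[n + 1] (X 0 * hz e' (map φ G₀)) := by
    intro T _ φ
    have h1 : ∀ (j : ℕ) (Q : MvPolynomial (Fin (n + 1)) R₀), map φ ((bind₁ (cn e f₀))^[j] Q) =
        (bind₁ (cn e (f₀.map φ)))^[j] (map φ Q) := by
      intro j Q
      induction j with
      | zero => rw [Function.iterate_zero_apply, Function.iterate_zero_apply]
      | succ j ih =>
        rw [Function.iterate_succ_apply', Function.iterate_succ_apply', map_bind₁, ih]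
        congr 2
        funext i
        exact cn_map φ e f₀ i
    rw [hH₀, h1, map_mul, map_X, hz_map]
  have hHne : map R₀.subtype H₀ ≠ 0 := by
    rw [hmapH, hf₀]
    have hd : (dd f).totalDegree ≤ e := by
      rw [← hf₀, dd_map]
      exact (totalDegree_map_le _ _).trans he0
    have hn : ∀ i, (nn f i).totalDegree ≤ e := by
      intro i
      rw [← hf₀, nn_map]
      exact (totalDegree_map_le _ _).trans (he1 i)
    have hinfk : Infinite k := CharZero.infinite k
    exact iter_ne_zero e e' f hden hinj hd hn _ hGne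
      ((totalDegree_map_le _ _).trans he'.ge) (n + 1)
  obtain ⟨m, hm⟩ := ne_zero_iff.1 hHne
  rw [coeff_map] at hm
  -- the place
  obtain ⟨V, hR, p, s₀, hp, hs₀, hchar, hfix, hne⟩ := hPl
    {((coeff m H₀ : R₀) : k), ((p₀.factorial : ℕ) : k)}
    (by
      intro h
      rw [Finset.mem_insert, Finset.mem_singleton] at h
      rcases h with h | h
      · exact hm h.symm
      · exact p₀.factorial_ne_zero (by exact_mod_cast h.symm))
    (by
      intro z hz
      rw [Finset.mem_coe, Finset.mem_insert, Finset.mem_singleton] at hz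
      rcases hz with rfl | rfl
      · exact SetLike.coe_mem _
      · exact natCast_mem R₀ _)
  have : Fact p.Prime := ⟨hp⟩
  have := hchar
  have hcl := closedP k V
  set ψ := red V R₀ hR with hψ
  have hpp₀ : p₀ < p := by
    by_contra h
    have h1 : p ∣ p₀.factorial := (Nat.Prime.dvd_factorial hp).2 (not_lt.1 h)
    refine hne ((p₀.factorial : ℕ) : R₀) ?_ ?_
    · rw [Finset.mem_insert, Finset.mem_singleton]
      right
      exact_mod_cast rfl
    · rw [map_natCast]
      exact (CharP.cast_eq_zero_iff _ p _).2 h1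
  -- the exponent
  obtain ⟨D, hD⟩ : ∃ D, D = e + (1 + e') * e ^ (n + 1) + 1 := ⟨_, rfl⟩
  obtain ⟨s, hs⟩ : ∃ s, s = s₀ * D := ⟨_, rfl⟩
  have hDs : D < p ^ s := by
    have h1 : D < 2 ^ D := Nat.lt_two_pow_self
    have h2 : 2 ^ D ≤ p ^ D := Nat.pow_le_pow_left hp.two_le D
    have h3 : p ^ D ≤ p ^ s := by
      refine Nat.pow_le_pow_right hp.pos ?_
      rw [hs]
      exact Nat.le_mul_of_pos_left D hs₀
    omega
  have hpow : ∀ r, ψ r ^ p ^ s = ψ r := by
    intro r
    rw [hs]
    generalize D = t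
    induction t with
    | zero => simp
    | succ t ih => rw [Nat.mul_succ, pow_add, pow_mul, ih, hfix]
  -- the algebraic closure of the prime field
  let _ : Algebra (ZMod p) (IsLocalRing.ResidueField V) := ZMod.algebra _ p
  have hcl1 : IsAlgClosed (algebraicClosure (ZMod p) (IsLocalRing.ResidueField V)) :=
    IsAlgClosure.isAlgClosed (ZMod p)
  have hmem1 : ∀ r, ψ r ∈ algebraicClosure (ZMod p) (IsLocalRing.ResidueField V) := by
    intro r
    rw [mem_algebraicClosure_iff]
    refine ⟨Polynomial.X ^ p ^ s₀ - Polynomial.X, FiniteField.X_pow_card_pow_sub_X_ne_zero _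
      (by omega) hp.one_lt, ?_⟩
    rw [map_sub, map_pow, Polynomial.aeval_X, hfix, sub_self]
  have hcl2 : ∃ (κ₁ : Type u) (_ : Field κ₁) (_ : IsAlgClosed κ₁) (_ : CharP κ₁ p)
      (τ : κ₁ →+* IsLocalRing.ResidueField V) (ψ₁ : R₀ →+* κ₁), τ.comp ψ₁ = ψ ∧
      ∀ z : κ₁, ∃ m, 1 ≤ m ∧ z ^ p ^ m = z := by
    refine ⟨algebraicClosure (ZMod p) (IsLocalRing.ResidueField V), inferInstance, hcl1,
      charP_of_injective_algebraMap (algebraMap (ZMod p) _).injective p,
      (algebraicClosure (ZMod p) (IsLocalRing.ResidueField V)).val.toRingHom,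
      ψ.codRestrict _ hmem1, ?_, ?_⟩
    · ext r
      rfl
    · intro z
      exact alg_pow p z (Algebra.IsAlgebraic.isAlgebraic (R := ZMod p) z)
  obtain ⟨κ₁, _, _, _, τ, ψ₁, hτψ, hκ₁⟩ := hcl2
  have hτinj : Function.Injective τ := τ.injective
  have hpow₁ : ∀ r, ψ₁ r ^ p ^ s = ψ₁ r := by
    intro r
    apply hτinj
    rw [map_pow]
    have h1 : τ (ψ₁ r) = ψ r := by rw [← hτψ]; rfl
    rw [h1]
    exact hpow r
  have hfixM : ∀ {i : ℕ} (Q : MvPolynomial (Fin i) R₀),
      map (iterateFrobenius κ₁ p s) (map ψ₁ Q) = map ψ₁ Q := by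
    intro i Q
    have h : (iterateFrobenius κ₁ p s).comp ψ₁ = ψ₁ :=
      RingHom.ext fun r => by
        rw [RingHom.comp_apply, iterateFrobenius_def]
        exact hpow₁ r
    rw [map_map, h]
  obtain ⟨c₁, hc₁, hcB₁⟩ := frob_points p (n + 1) s e (fun i => map ψ₁ (cn e f₀ i))
    (map ψ₁ (X 0 * hz e' G₀)) (fun i => hfixM _) (hfixM _)
    (fun i => (totalDegree_map_le _ _).trans (cn_totalDegree e f₀ he0 he1 i)) (by omega)
    (by
      have h1 : (map ψ₁ (X 0 * hz e' G₀)).totalDegree ≤ 1 + e' := by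
        refine (totalDegree_map_le _ _).trans ((totalDegree_mul _ _).trans ?_)
        refine Nat.add_le_add ?_ (hz_totalDegree _ _ he'.ge)
        exact (totalDegree_X (R := R₀) (0 : Fin (n + 1))).le
      have h2 : (map ψ₁ (X 0 * hz e' G₀)).totalDegree * e ^ (n + 1) ≤ (1 + e') * e ^ (n + 1) :=
        Nat.mul_le_mul h1 le_rfl
      omega)
    (by
      have h1 : (fun i => map ψ₁ (cn e f₀ i)) = cn e (f₀.map ψ₁) := funext fun i => cn_map ψ₁ e f₀ i
      rw [h1, map_mul, map_X, hz_map, ← hmapH]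
      intro h2
      have h3 := congrArg (coeff m) h2
      rw [coeff_map, coeff_zero] at h3
      refine hne (coeff m H₀) ?_ ?_
      · rw [Finset.mem_insert]
        exact Or.inl rfl
      · have h4 := congrArg τ h3
        rw [map_zero] at h4
        have h5 : τ (ψ₁ (coeff m H₀)) = ψ (coeff m H₀) := by rw [← hτψ]; rfl
        rw [h5] at h4
        exact h4)
  obtain ⟨c, hcdef⟩ : ∃ c : Fin (n + 1) → IsLocalRing.ResidueField V, c = fun i => τ (c₁ i) :=
    ⟨_, rfl⟩
  have hevτ : ∀ Q : MvPolynomial (Fin (n + 1)) R₀, eval c (map ψ Q) = τ (eval c₁ (map ψ₁ Q)) := by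
    intro Q
    rw [hcdef, eval_map, eval_map, hom_eval₂, hτψ]
  have hc : ∀ i, c i ^ p ^ s = eval c (map ψ (cn e f₀ i)) := by
    intro i
    rw [hevτ, ← hc₁ i, map_pow, hcdef]
  have hcB : eval c (map ψ (X 0 * hz e' G₀)) ≠ 0 := by
    rw [hevτ]
    exact (map_ne_zero τ).2 hcB₁
  rw [map_mul, map_mul, map_X, eval_X, hz_map] at hcB
  have hc0 : c 0 ≠ 0 := left_ne_zero_of_mul hcB
  have hcG := right_ne_zero_of_mul hcB
  rw [hz_eval e' _ ((totalDegree_map_le _ _).trans he'.ge) c hc0] at hcG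
  have hcG' := right_ne_zero_of_mul hcG
  set a : Fin n → IsLocalRing.ResidueField V := fun i => c (Fin.succ i) / c 0 with ha
  rw [hG₀, map_mul, map_mul, map_mul, map_mul, ← dd_map, ← map_Jc] at hcG'
  have haJ := right_ne_zero_of_mul hcG'
  have haB := left_ne_zero_of_mul (left_ne_zero_of_mul hcG')
  have had := right_ne_zero_of_mul (left_ne_zero_of_mul hcG')
  have hfrob : FrobPt (f₀.map ψ) (p ^ s) a := by
    refine frobPt_of_cone e (p ^ s) (f₀.map ψ) ?_ ?_ c hc0 ?_ had
    · rw [dd_map]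
      exact (totalDegree_map_le _ _).trans he0
    · intro i
      rw [nn_map]
      exact (totalDegree_map_le _ _).trans (he1 i)
    · intro i
      rw [hc i, cn_map]
  obtain ⟨r₀, hr₀, har⟩ : ∃ r : ℕ, 1 ≤ r ∧ ∀ i, a i ^ (p ^ r) = a i := by
    obtain ⟨r, hr, h⟩ := exists_exponent p hκ₁ (Finset.univ : Finset (Fin n))
      (fun i => c₁ (Fin.succ i) / c₁ 0)
    refine ⟨r, hr, fun i => ?_⟩
    have h1 : a i = τ (c₁ (Fin.succ i) / c₁ 0) := by
      rw [map_div₀, ha, hcdef]
    rw [h1, ← map_pow, h i (Finset.mem_univ i)]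
  have hs1 : 1 ≤ s := by
    by_contra h
    have h1 : s = 0 := by omega
    rw [h1, pow_zero] at hDs
    omega
  obtain ⟨N, hN, hcl'⟩ := closed_place2 V S R₀ hR₀ hR p s hpow hs1 n f₀ a r₀ hr₀ har hfrob haJ
  refine ⟨V, p, a, N, hp, hpp₀, hchar, hN, ⟨r₀, hr₀, har⟩, fun x₀ hx₀ => ?_⟩
  obtain ⟨x, h0, hx, -, hxB⟩ := liftP k V R₀ hR p s hpow n f₀ a hfrob x₀ hx₀
  refine ⟨x, h0, by rw [← hf₀]; exact hx, fun i => ?_, hcl' x hx (by rw [h0]; exact hx₀)⟩
  rw [← hB₀]
  exact hxB B₀ haB i

end Pool.Agent.ZDO
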