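import Pool.Agent.ZDO.Clo

/-!
# The polynomials vanishing on `x (M t)`, `t ≥ 0`, form a prime ideal
-/

set_option autoImplicit false

namespace Pool.Agent.ZDO

open MvPolynomial

universe u

theorem crt_aux (p p' J J' t₁ t₂ : ℕ) (hp : p.Prime) (hp' : p'.Prime) (hne : p ≠ p') :
    ∃ t s s', t = t₁ + p ^ J * s ∧ t = t₂ + p' ^ J' * s' := by
  have hco : Nat.Coprime (p ^ J) (p' ^ J') :=
    Nat.Coprime.pow _ _ ((Nat.coprime_primes hp hp').2 hne)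
  obtain ⟨z, hz₁, hz₂⟩ := Nat.chineseRemainder hco t₁ t₂
  have hpos : 1 ≤ p ^ J := Nat.one_le_pow _ _ hp.pos
  have hpos' : 1 ≤ p' ^ J' := Nat.one_le_pow _ _ hp'.pos
  obtain ⟨t, ht⟩ : ∃ t, t = z + p ^ J * p' ^ J' * (t₁ + t₂) := ⟨_, rfl⟩
  have hge : t₁ + t₂ ≤ t := by
    rw [ht]
    have h1 : 1 ≤ p ^ J * p' ^ J' := Nat.mul_pos hpos hpos'
    nlinarith
  have h1 : t₁ ≡ t [MOD p ^ J] := by
    rw [ht]
    have h2 : z + p ^ J * p' ^ J' * (t₁ + t₂) ≡ z + 0 [MOD p ^ J] := by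
      refine Nat.ModEq.add_left _ ?_
      rw [mul_assoc]
      exact (Nat.modEq_zero_iff_dvd).2 (Dvd.intro _ rfl)
    exact ((h2.trans (by rw [add_zero]; exact hz₁))).symm
  have h2 : t₂ ≡ t [MOD p' ^ J'] := by
    rw [ht]
    have h2 : z + p ^ J * p' ^ J' * (t₁ + t₂) ≡ z + 0 [MOD p' ^ J'] := by
      refine Nat.ModEq.add_left _ ?_
      rw [mul_comm (p ^ J), mul_assoc]
      exact (Nat.modEq_zero_iff_dvd).2 (Dvd.intro _ rfl)
    exact ((h2.trans (by rw [add_zero]; exact hz₂))).symm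
  obtain ⟨s, hs⟩ := (Nat.modEq_iff_dvd' (by omega)).1 h1
  obtain ⟨s', hs'⟩ := (Nat.modEq_iff_dvd' (by omega)).1 h2
  exact ⟨t, s, s', by omega, by omega⟩

theorem prime_of_cl {k : Type u} [Field k] {n : ℕ} (N N' p p' : ℕ) (hp : p.Prime) (hp' : p'.Prime)
    (hne : p ≠ p') (x : ℕ → Fin n → k) (h₁ : ClN N p x) (h₂ : ClN N' p' x)
    (G H : MvPolynomial (Fin n) k) (h : ∀ t, eval (x (N * N' * t)) (G * H) = 0) :
    (∀ t, eval (x (N * N' * t)) G = 0) ∨ (∀ t, eval (x (N * N' * t)) H = 0) := by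
  by_contra hcon
  push Not at hcon
  obtain ⟨⟨t₁, ht₁⟩, ⟨t₂, ht₂⟩⟩ := hcon
  obtain ⟨J, hJ⟩ := h₁ G _ ht₁
  obtain ⟨J', hJ'⟩ := h₂ H _ ht₂
  obtain ⟨t, s, s', hs, hs'⟩ := crt_aux p p' J J' t₁ t₂ hp hp' hne
  have h3 := hJ (N' * s)
  have h4 := hJ' (N * s')
  have h5 : N * N' * t₁ + N * p ^ J * (N' * s) = N * N' * t := by rw [hs]; ring
  have h6 : N * N' * t₂ + N' * p' ^ J' * (N * s') = N * N' * t := by rw [hs']; ring
  rw [h5] at h3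
  rw [h6] at h4
  have h7 := h t
  rw [map_mul] at h7
  exact mul_ne_zero h3 h4 h7

end Pool.Agent.ZDO
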