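import Pool.Agent.Lib.MP_16285c_ag.Base

/-!
# Orbits in residue classes are recurrent

Lemma P. Let `A` be a commutative ring, `𝔪` an ideal containing the prime `p`, `x` an orbit of the rational map `f` over `A` such that
all denominators are units along the orbit and `D j` the derivative of `f` at `x j`. If `x (j + N) ≡ x j` and
`D (j + N - 1) ⋯ D j ≡ 1` modulo `𝔪` for all `j`, then `x (j + N p ^ i) ≡ x j` modulo `𝔪 ^ (i + 1)`.
-/

set_option autoImplicit false

namespace Pool.Agent.ZDO

open MvPolynomial Pool.Agent.Lib.MP_16285c_ag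

universe u

variable {A : Type u} [CommRing A] {n : ℕ}

/-- The numerators of the partial derivatives of `f i = num i / den i`. -/
noncomputable def Wd (f : RM A n) (i l : Fin n) : MvPolynomial (Fin n) A :=
  pderiv l (f.num i) * f.den i - f.num i * pderiv l (f.den i)

/-- The Jacobian determinant (numerator). -/
noncomputable def Jc (f : RM A n) : MvPolynomial (Fin n) A := (Matrix.of fun i l => Wd f i l).det

/-- `D (j + m - 1) ⋯ D (j + 1) D j`. -/
def Pr {R : Type*} [CommRing R] (D : ℕ → Matrix (Fin n) (Fin n) R) (j : ℕ) : ℕ → Matrix (Fin n) (Fin n) R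
  | 0 => 1
  | m + 1 => D (j + m) * Pr D j m

theorem Pr_add {R : Type*} [CommRing R] (D : ℕ → Matrix (Fin n) (Fin n) R) (j a b : ℕ) :
    Pr D j (a + b) = Pr D (j + a) b * Pr D j a := by
  induction b with
  | zero => rw [add_zero, Pr, one_mul]
  | succ b ih => rw [← add_assoc, Pr, ih, Pr, Matrix.mul_assoc, add_assoc]

theorem Pr_map {R S : Type*} [CommRing R] [CommRing S] (φ : R →+* S)
    (D : ℕ → Matrix (Fin n) (Fin n) R) (j m : ℕ) :
    (Pr D j m).map φ = Pr (fun i => (D i).map φ) j m := by
  induction m with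
  | zero => rw [Pr, Pr, Matrix.map_one _ φ.map_zero φ.map_one]
  | succ m ih => rw [Pr, Pr, Matrix.map_mul, ih]

/-- Taylor expansion to first order. -/
theorem taylor (J : Ideal A) (x e : Fin n → A) (he : ∀ l, e l ∈ J) (G : MvPolynomial (Fin n) A) :
    eval (fun l => x l + e l) G - eval x G - ∑ l, eval x (pderiv l G) * e l ∈ J ^ 2 := by
  classical
  induction G using MvPolynomial.induction_on with
  | C a =>
    simp
  | add P Q hP hQ =>
    have h := Ideal.add_mem _ hP hQ
    have h2 : eval (fun l => x l + e l) (P + Q) - eval x (P + Q) -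
        ∑ l, eval x (pderiv l (P + Q)) * e l =
        (eval (fun l => x l + e l) P - eval x P - ∑ l, eval x (pderiv l P) * e l) +
        (eval (fun l => x l + e l) Q - eval x Q - ∑ l, eval x (pderiv l Q) * e l) := by
      have h3 : ∑ l, eval x (pderiv l (P + Q)) * e l =
          ∑ l, eval x (pderiv l P) * e l + ∑ l, eval x (pderiv l Q) * e l := by
        rw [← Finset.sum_add_distrib]
        refine Finset.sum_congr rfl fun l _ => ?_
        rw [map_add, map_add, add_mul]
      rw [h3, map_add, map_add]
      ring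
    rw [h2]
    exact h
  | mul_X P i hP =>
    have h3 : ∑ l, eval x (pderiv l (P * X i)) * e l =
        (∑ l, eval x (pderiv l P) * e l) * x i + eval x P * e i := by
      have h4 : ∀ l, eval x (pderiv l (P * X i)) * e l =
          eval x (pderiv l P) * e l * x i + (if l = i then eval x P * e l else 0) := by
        intro l
        rw [pderiv_mul, pderiv_X, map_add, map_mul, map_mul, eval_X]
        by_cases h : l = i
        · subst h
          rw [Pi.single_eq_same, map_one, if_pos rfl]
          ring
        · rw [if_neg h, Pi.single_eq_of_ne (Ne.symm h), map_zero]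
          ring
      rw [Finset.sum_congr rfl fun l _ => h4 l, Finset.sum_add_distrib, Finset.sum_mul,
        Finset.sum_ite_eq' Finset.univ i, if_pos (Finset.mem_univ i)]
    have h5 : ∑ l, eval x (pderiv l P) * e l ∈ J :=
      Ideal.sum_mem _ fun l _ => Ideal.mul_mem_left _ _ (he l)
    have h6 : (∑ l, eval x (pderiv l P) * e l) * e i ∈ J ^ 2 := by
      rw [pow_two]
      exact Ideal.mul_mem_mul h5 (he i)
    have h7 := Ideal.add_mem _ (Ideal.mul_mem_right (x i + e i) _ hP) h6
    have h8 : eval (fun l => x l + e l) (P * X i) - eval x (P * X i) -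
        ∑ l, eval x (pderiv l (P * X i)) * e l =
        (eval (fun l => x l + e l) P - eval x P - ∑ l, eval x (pderiv l P) * e l) * (x i + e i) +
          (∑ l, eval x (pderiv l P) * e l) * e i := by
      rw [h3, map_mul, map_mul, eval_X, eval_X]
      ring
    rw [h8]
    exact h7

/-- One step: `f (y + e) - f y ≡ D e` modulo `J ^ 2`. -/
theorem step (f : RM A n) (J : Ideal A) (y y' z z' : Fin n → A) (D : Matrix (Fin n) (Fin n) A)
    (hy : ∀ i, z i * eval y (f.den i) = eval y (f.num i))
    (hy' : ∀ i, z' i * eval y' (f.den i) = eval y' (f.num i))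
    (hu : ∀ i, IsUnit (eval y (f.den i))) (hu' : ∀ i, IsUnit (eval y' (f.den i)))
    (hD : ∀ i l, D i l * eval y (f.den i) ^ 2 = eval y (Wd f i l))
    (he : ∀ i, y' i - y i ∈ J) (i : Fin n) :
    z' i - z i - ∑ l, D i l * (y' l - y l) ∈ J ^ 2 := by
  set e : Fin n → A := fun l => y' l - y l with hedef
  have hye : y' = fun l => y l + e l := by
    funext l
    rw [hedef]
    ring
  have h1 := taylor J y e he (f.num i)
  have h2 := taylor J y e he (f.den i)
  rw [← hye] at h1 h2
  set a := eval y (f.den i) with ha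
  set a' := eval y' (f.den i) with ha'
  set b := eval y (f.num i) with hb
  set b' := eval y' (f.num i) with hb'
  set sa := ∑ l, eval y (pderiv l (f.den i)) * e l with hsa
  set sb := ∑ l, eval y (pderiv l (f.num i)) * e l with hsb
  have hsaJ : sa ∈ J := Ideal.sum_mem _ fun l _ => Ideal.mul_mem_left _ _ (he l)
  have hsbJ : sb ∈ J := Ideal.sum_mem _ fun l _ => Ideal.mul_mem_left _ _ (he l)
  have hJ2 : ∀ t, t ∈ J ^ 2 → t ∈ J := fun t ht => Ideal.pow_le_self two_ne_zero ht
  -- `a' - a`, `b' - b` are in `J`
  have h3 : a' - a ∈ J := by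
    have : a' - a = (a' - a - sa) + sa := by ring
    rw [this]
    exact Ideal.add_mem _ (hJ2 _ h2) hsaJ
  -- the difference of the values
  have h4 : (z' i - z i) * (a * a') - (sb * a - b * sa) ∈ J ^ 2 := by
    have h5 : (z' i - z i) * (a * a') - (sb * a - b * sa) =
        (b' - b - sb) * a - b * (a' - a - sa) := by
      have h6 := hy i
      have h7 := hy' i
      rw [← ha, ← hb] at h6
      rw [← ha', ← hb'] at h7
      linear_combination a * h7 - a' * h6
    rw [h5]
    exact Ideal.sub_mem _ (Ideal.mul_mem_right _ _ h1) (Ideal.mul_mem_left _ _ h2)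
  have h5 : z' i - z i ∈ J := by
    have h6 : (z' i - z i) * (a * a') ∈ J := by
      have h7 : (z' i - z i) * (a * a') =
          ((z' i - z i) * (a * a') - (sb * a - b * sa)) + (sb * a - b * sa) := by ring
      rw [h7]
      exact Ideal.add_mem _ (hJ2 _ h4)
        (Ideal.sub_mem _ (Ideal.mul_mem_right _ _ hsbJ) (Ideal.mul_mem_left _ _ hsaJ))
    exact (Ideal.mul_unit_mem_iff_mem _ ((hu i).mul (hu' i))).1 h6
  have h6 : (z' i - z i) * (a * (a' - a)) ∈ J ^ 2 := by
    rw [pow_two]
    exact Ideal.mul_mem_mul h5 (Ideal.mul_mem_left _ _ h3)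
  have h7 : (z' i - z i - ∑ l, D i l * e l) * a ^ 2 ∈ J ^ 2 := by
    have h8 : (∑ l, D i l * e l) * a ^ 2 = sb * a - b * sa := by
      rw [Finset.sum_mul, hsb, hsa, Finset.sum_mul, Finset.mul_sum, ← Finset.sum_sub_distrib]
      refine Finset.sum_congr rfl fun l _ => ?_
      have h9 := hD i l
      rw [Wd, map_sub, map_mul, map_mul, ← ha, ← hb] at h9
      linear_combination e l * h9
    have h9 : (z' i - z i - ∑ l, D i l * e l) * a ^ 2 =
        ((z' i - z i) * (a * a') - (sb * a - b * sa)) - (z' i - z i) * (a * (a' - a)) := by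
      rw [sub_mul, h8]
      ring
    rw [h9]
    exact Ideal.sub_mem _ h4 h6
  exact (Ideal.mul_unit_mem_iff_mem _ ((hu i).pow 2)).1 h7

/-- **Lemma P.** -/
theorem recurrence (f : RM A n) (𝔪 : Ideal A) (p : ℕ) (hp : (p : A) ∈ 𝔪) (x : ℕ → Fin n → A)
    (hx : ∀ j i, x (j + 1) i * eval (x j) (f.den i) = eval (x j) (f.num i))
    (hu : ∀ j i, IsUnit (eval (x j) (f.den i))) (D : ℕ → Matrix (Fin n) (Fin n) A)
    (hD : ∀ j i l, D j i l * eval (x j) (f.den i) ^ 2 = eval (x j) (Wd f i l)) (N : ℕ)
    (h0 : ∀ j i, x (j + N) i - x j i ∈ 𝔪) (hP : ∀ j i l, (Pr D j N - 1) i l ∈ 𝔪) :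
    ∀ i j l, x (j + N * p ^ i) l - x j l ∈ 𝔪 ^ (i + 1) := by
  intro i
  induction i with
  | zero =>
    intro j l
    rw [pow_zero, mul_one, zero_add, pow_one]
    exact h0 j l
  | succ i ih =>
    set M := N * p ^ i with hM
    set e : ℕ → Fin n → A := fun j l => x (j + M) l - x j l with he
    have heJ : ∀ j l, e j l ∈ 𝔪 ^ (i + 1) := ih
    have hle : (𝔪 ^ (i + 1)) ^ 2 ≤ 𝔪 ^ (i + 1 + 1) := by
      rw [← pow_mul]
      exact Ideal.pow_le_pow_right (by omega)
    have hmul : ∀ u v, u ∈ 𝔪 → v ∈ 𝔪 ^ (i + 1) → u * v ∈ 𝔪 ^ (i + 1 + 1) := by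
      intro u v hu hv
      rw [pow_succ']
      exact Ideal.mul_mem_mul hu hv
    -- one step
    have h1 : ∀ j l, e (j + 1) l - ∑ m, D j l m * e j m ∈ 𝔪 ^ (i + 1 + 1) := by
      intro j l
      have h2 := step f (𝔪 ^ (i + 1)) (x j) (x (j + M)) (x (j + 1)) (x (j + M + 1)) (D j) (hx j)
        (hx (j + M)) (hu j) (hu (j + M)) (hD j) (ih j) l
      have h3 : e (j + 1) l = x (j + M + 1) l - x (j + 1) l := by
        rw [he]
        simp only
        rw [add_right_comm]
      rw [h3]
      exact hle h2
    -- several steps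
    have h2 : ∀ m j l, e (j + m) l - ∑ r, Pr D j m l r * e j r ∈ 𝔪 ^ (i + 1 + 1) := by
      intro m
      induction m with
      | zero =>
        intro j l
        have : e (j + 0) l - ∑ r, Pr D j 0 l r * e j r = 0 := by
          rw [Pr, add_zero]
          have h4 : ∑ r, (1 : Matrix (Fin n) (Fin n) A) l r * e j r = e j l := by
            have := congrFun (Matrix.one_mulVec (e j)) l
            exact this
          rw [h4, sub_self]
        rw [this]
        exact Ideal.zero_mem _
      | succ m ihm =>
        intro j l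
        have h3 := h1 (j + m) l
        have h4 : ∑ r, D (j + m) l r * (e (j + m) r - ∑ t, Pr D j m r t * e j t) ∈
            𝔪 ^ (i + 1 + 1) :=
          Ideal.sum_mem _ fun r _ => Ideal.mul_mem_left _ _ (ihm j r)
        have h5 : ∑ r, D (j + m) l r * (e (j + m) r - ∑ t, Pr D j m r t * e j t) =
            ∑ r, D (j + m) l r * e (j + m) r - ∑ t, Pr D j (m + 1) l t * e j t := by
          have h6 : ∑ t, Pr D j (m + 1) l t * e j t =
              ∑ r, D (j + m) l r * ∑ t, Pr D j m r t * e j t := by
            have h7 := congrFun (Matrix.mulVec_mulVec (e j) (D (j + m)) (Pr D j m)) l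
            exact h7.symm
          rw [h6, ← Finset.sum_sub_distrib]
          exact Finset.sum_congr rfl fun r _ => mul_sub _ _ _
        rw [h5] at h4
        have h6 : e (j + (m + 1)) l - ∑ r, Pr D j (m + 1) l r * e j r =
            (e (j + m + 1) l - ∑ r, D (j + m) l r * e (j + m) r) +
            (∑ r, D (j + m) l r * e (j + m) r - ∑ t, Pr D j (m + 1) l t * e j t) := by
          rw [add_assoc]
          ring
        rw [h6]
        exact Ideal.add_mem _ h3 h4
    -- `N` steps
    have h3 : ∀ j l, e (j + N) l - e j l ∈ 𝔪 ^ (i + 1 + 1) := by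
      intro j l
      have h4 := h2 N j l
      have h5 : ∑ r, (Pr D j N - 1) l r * e j r ∈ 𝔪 ^ (i + 1 + 1) :=
        Ideal.sum_mem _ fun r _ => hmul _ _ (hP j l r) (heJ j r)
      have h6 : ∑ r, (Pr D j N - 1) l r * e j r = ∑ r, Pr D j N l r * e j r - e j l := by
        have h7 : ∑ r, (1 : Matrix (Fin n) (Fin n) A) l r * e j r = e j l :=
          congrFun (Matrix.one_mulVec (e j)) l
        rw [← h7, ← Finset.sum_sub_distrib]
        exact Finset.sum_congr rfl fun r _ => by rw [Matrix.sub_apply, sub_mul]
      rw [h6] at h5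
      have h7 : e (j + N) l - e j l = (e (j + N) l - ∑ r, Pr D j N l r * e j r) +
          (∑ r, Pr D j N l r * e j r - e j l) := by ring
      rw [h7]
      exact Ideal.add_mem _ h4 h5
    have h4 : ∀ t j l, e (j + N * t) l - e j l ∈ 𝔪 ^ (i + 1 + 1) := by
      intro t
      induction t with
      | zero =>
        intro j l
        rw [mul_zero, add_zero, sub_self]
        exact Ideal.zero_mem _
      | succ t iht =>
        intro j l
        have h5 : e (j + N * (t + 1)) l - e j l =
            (e (j + N * t + N) l - e (j + N * t) l) + (e (j + N * t) l - e j l) := by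
          rw [mul_add, mul_one, ← add_assoc]
          ring
        rw [h5]
        exact Ideal.add_mem _ (h3 _ l) (iht j l)
    -- `p` summands
    intro j l
    have h5 : ∀ t, x (j + M * t) l - x j l - t * e j l ∈ 𝔪 ^ (i + 1 + 1) := by
      intro t
      induction t with
      | zero =>
        rw [mul_zero, add_zero, sub_self, Nat.cast_zero, zero_mul, sub_zero]
        exact Ideal.zero_mem _
      | succ t iht =>
        have h6 : e (j + M * t) l - e j l ∈ 𝔪 ^ (i + 1 + 1) := by
          have h7 := h4 (p ^ i * t) j l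
          rw [← mul_assoc, ← hM] at h7
          exact h7
        have h7 : x (j + M * (t + 1)) l - x j l - ((t + 1 : ℕ) : A) * e j l =
            (x (j + M * t) l - x j l - t * e j l) + (e (j + M * t) l - e j l) := by
          have h8 : e (j + M * t) l = x (j + M * (t + 1)) l - x (j + M * t) l := by
            rw [he]
            simp only
            rw [mul_add, mul_one, ← add_assoc]
          rw [h8, Nat.cast_add, Nat.cast_one]
          ring
        rw [h7]
        exact Ideal.add_mem _ iht h6
    have h6 := h5 p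
    have h7 : M * p = N * p ^ (i + 1) := by rw [hM, pow_succ, mul_assoc]
    rw [h7] at h6
    have h8 : x (j + N * p ^ (i + 1)) l - x j l =
        (x (j + N * p ^ (i + 1)) l - x j l - p * e j l) + p * e j l := by ring
    rw [h8]
    exact Ideal.add_mem _ h6 (hmul _ _ hp (heJ j l))

end Pool.Agent.ZDO
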