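import Pool.Agent.ZDO.Std

/-!
# Frobenius points of dominant polynomial maps

Let `κ` be an algebraically closed field of characteristic `p`, `q = p ^ s`, `F : A^n → A^n` a polynomial map over the field
with `q` elements, of degree smaller than `q`, and `B` a polynomial over the field with `q` elements such that
`B ∘ F ∘ ⋯ ∘ F` (`n` times) is not zero and `deg B * d ^ n < q`. Then there is a point `a` with `a i ^ q = F i (a)` and
`B (a) ≠ 0`. Applied to the cone over projective space this gives Frobenius points of rational maps.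
-/

set_option autoImplicit false

namespace Pool.Agent.ZDO

open MvPolynomial

section deg

variable {R : Type*} [CommRing R] {n : ℕ}

theorem totalDegree_bind {σ τ : Type*} (F : σ → MvPolynomial τ R) (d : ℕ)
    (hF : ∀ i, (F i).totalDegree ≤ d) (G : MvPolynomial σ R) :
    (bind₁ F G).totalDegree ≤ G.totalDegree * d := by
  classical
  conv_lhs => rw [G.as_sum]
  rw [map_sum]
  refine totalDegree_finsetSum_le fun m hm => ?_
  rw [bind₁_monomial]
  refine (totalDegree_mul _ _).trans ?_
  rw [totalDegree_C, zero_add]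
  refine (totalDegree_finsetProd _ _).trans ?_
  calc ∑ i ∈ m.support, (F i ^ m i).totalDegree ≤ ∑ i ∈ m.support, m i * d := by
        refine Finset.sum_le_sum fun i _ => ?_
        exact (totalDegree_pow _ _).trans (Nat.mul_le_mul le_rfl (hF i))
    _ = (∑ i ∈ m.support, m i) * d := by rw [Finset.sum_mul]
    _ ≤ G.totalDegree * d := Nat.mul_le_mul (le_totalDegree hm) le_rfl

theorem totalDegree_iter (F : Fin n → MvPolynomial (Fin n) R) (d : ℕ)
    (hF : ∀ i, (F i).totalDegree ≤ d) (G : MvPolynomial (Fin n) R) (j : ℕ) :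
    ((bind₁ F)^[j] G).totalDegree ≤ G.totalDegree * d ^ j := by
  induction j with
  | zero => rw [Function.iterate_zero_apply, pow_zero, mul_one]
  | succ j ih =>
    rw [Function.iterate_succ_apply', pow_succ, ← mul_assoc]
    exact (totalDegree_bind F d hF _).trans (Nat.mul_le_mul ih le_rfl)

end deg

section nil

theorem pow_eq_zero_of_finrank {κ R : Type*} [Field κ] [CommRing R] [Algebra κ R] [Module.Finite κ R]
    (b : R) (hb : IsNilpotent b) (N : ℕ) (hN : Module.finrank κ R ≤ N) : b ^ N = 0 := by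
  obtain ⟨k, hk⟩ := hb
  have h1 : IsNilpotent (LinearMap.mulLeft κ b) := by
    refine ⟨k, ?_⟩
    rw [LinearMap.pow_mulLeft, hk]
    exact LinearMap.mulLeft_zero_eq_zero κ R
  have h2 := h1.charpoly_eq_X_pow_finrank
  have h3 := (LinearMap.mulLeft κ b).aeval_self_charpoly
  rw [h2, map_pow, Polynomial.aeval_X, LinearMap.pow_mulLeft] at h3
  have h4 := LinearMap.congr_fun h3 1
  rw [LinearMap.mulLeft_apply, mul_one, LinearMap.zero_apply] at h4
  exact pow_eq_zero_of_le hN h4

end nil

/-- Frobenius points of polynomial maps. -/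
theorem frob_points {κ : Type*} [Field κ] [IsAlgClosed κ] (p : ℕ) [Fact p.Prime] [CharP κ p]
    (n s d : ℕ) (F : Fin n → MvPolynomial (Fin n) κ) (B : MvPolynomial (Fin n) κ)
    (hF : ∀ i, map (iterateFrobenius κ p s) (F i) = F i)
    (hB : map (iterateFrobenius κ p s) B = B)
    (hd : ∀ i, (F i).totalDegree ≤ d) (hds : d < p ^ s)
    (hdeg : B.totalDegree * d ^ n < p ^ s) (hne : (bind₁ F)^[n] B ≠ 0) :
    ∃ a : Fin n → κ, (∀ i, a i ^ p ^ s = eval a (F i)) ∧ eval a B ≠ 0 := by
  by_contra hcon
  push Not at hcon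
  have hF' : ∀ i, (F i).totalDegree < p ^ s := fun i => (hd i).trans_lt hds
  have hq : 0 < p ^ s := lt_of_le_of_lt (Nat.zero_le _) hds
  have hfin := finite_quot hF' hq
  have hrank := finrank_quot hF' hq
  -- `B` is nilpotent modulo the ideal
  have h1 : B ∈ (II (p ^ s) F).radical := by
    rw [← vanishingIdeal_zeroLocus_eq_radical (K := κ)]
    rw [mem_vanishingIdeal_iff]
    intro a ha
    rw [mem_zeroLocus_iff] at ha
    have h0 : ∀ G : MvPolynomial (Fin n) κ, aeval a G = eval a G := fun G => by
      rw [← coe_aeval_eq_eval]; rfl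
    rw [h0]
    refine hcon a fun i => ?_
    have h2 := ha (X i ^ p ^ s - F i) (Ideal.subset_span (Set.mem_range_self i))
    rw [map_sub, map_pow, aeval_X, sub_eq_zero, h0] at h2
    exact h2
  have h2 : IsNilpotent (Ideal.Quotient.mk (II (p ^ s) F) B) := by
    obtain ⟨k, hk⟩ := h1
    exact ⟨k, by rw [← map_pow]; exact Ideal.Quotient.eq_zero_iff_mem.2 hk⟩
  have h3 := pow_eq_zero_of_finrank (κ := κ) _ h2 _ hrank
  -- the `q`-th power is the composition
  have h4 : ∀ G : MvPolynomial (Fin n) κ, map (iterateFrobenius κ p s) G = G →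
      Ideal.Quotient.mk (II (p ^ s) F) G ^ p ^ s = Ideal.Quotient.mk (II (p ^ s) F) (bind₁ F G) := by
    intro G hG
    have h5 : G ^ p ^ s = bind₁ (fun i => X i ^ p ^ s) G := by
      have h6 := map_iterateFrobenius_expand p G s
      rw [map_expand, hG] at h6
      rw [← h6, expand]
    rw [← map_pow, h5]
    have h6 : (Ideal.Quotient.mkₐ κ (II (p ^ s) F)).comp (bind₁ fun i => X i ^ p ^ s) =
        (Ideal.Quotient.mkₐ κ (II (p ^ s) F)).comp (bind₁ F) := by
      ext i
      rw [AlgHom.comp_apply, AlgHom.comp_apply, bind₁_X_right, bind₁_X_right]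
      rw [Ideal.Quotient.mkₐ_eq_mk, Ideal.Quotient.eq]
      exact Ideal.subset_span (Set.mem_range_self i)
    exact DFunLike.congr_fun h6 G
  have h5 : ∀ j, map (iterateFrobenius κ p s) ((bind₁ F)^[j] B) = (bind₁ F)^[j] B ∧
      Ideal.Quotient.mk (II (p ^ s) F) B ^ (p ^ s) ^ j =
        Ideal.Quotient.mk (II (p ^ s) F) ((bind₁ F)^[j] B) := by
    intro j
    induction j with
    | zero => exact ⟨hB, by rw [pow_zero, pow_one, Function.iterate_zero_apply]⟩
    | succ j ih =>
      rw [Function.iterate_succ_apply']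
      refine ⟨?_, ?_⟩
      · rw [map_bind₁, ih.1]
        congr 2
        funext i
        exact hF i
      · rw [pow_succ, pow_mul, ih.2, h4 _ ih.1]
  have h6 : (bind₁ F)^[n] B ∈ II (p ^ s) F := by
    rw [← Ideal.Quotient.eq_zero_iff_mem, ← (h5 n).2]
    exact h3
  exact hne (small_eq_zero hF' hq _ ((totalDegree_iter F d hd B n).trans_lt hdeg) h6)

end Pool.Agent.ZDO
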