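import Pool.Agent.ZDO.Per
import Pool.Agent.ZDO.Hru
import Pool.Agent.Lib.MP_16285c_ag.Comp

/-!
# The cone over a rational map

A rational self-map `f` of affine `n`-space is lifted to a polynomial self-map `cn e f` of affine `n+1`-space, homogeneous of degree `e`:
the cone over the corresponding self-map of projective `n`-space.
-/

set_option autoImplicit false

namespace Pool.Agent.ZDO

open MvPolynomial Pool.Agent.Lib.MP_16285c_ag

universe u

section hz

variable {R S : Type u} [CommRing R] [CommRing S] {n : ℕ}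

theorem totalDegree_map_le {σ : Type*} (φ : R →+* S) (G : MvPolynomial σ R) :
    (map φ G).totalDegree ≤ G.totalDegree := Finset.sup_mono (support_map_subset φ G)

/-- The homogeneous monomial of degree `e` (if `m.degree ≤ e`). -/
noncomputable def hmon (R : Type u) [CommRing R] (e : ℕ) (m : Fin n →₀ ℕ) :
    MvPolynomial (Fin (n + 1)) R := X 0 ^ (e - m.degree) * ∏ i, X i.succ ^ m i

/-- Homogenisation. -/
noncomputable def hz (e : ℕ) (G : MvPolynomial (Fin n) R) : MvPolynomial (Fin (n + 1)) R :=
  ∑ m ∈ G.support, C (coeff m G) * hmon R e m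

theorem hz_eq_sum (e : ℕ) (G : MvPolynomial (Fin n) R) (s : Finset (Fin n →₀ ℕ))
    (hs : G.support ⊆ s) : hz e G = ∑ m ∈ s, C (coeff m G) * hmon R e m := by
  refine Finset.sum_subset hs fun m _ hm => ?_
  rw [notMem_support_iff.1 hm, C_0, zero_mul]

theorem hmon_map (φ : R →+* S) (e : ℕ) (m : Fin n →₀ ℕ) : map φ (hmon R e m) = hmon S e m := by
  rw [hmon, hmon, map_mul, map_pow, map_X, map_prod]
  congr 1
  refine Finset.prod_congr rfl fun i _ => ?_
  rw [map_pow, map_X]

theorem hz_map (φ : R →+* S) (e : ℕ) (G : MvPolynomial (Fin n) R) :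
    map φ (hz e G) = hz e (map φ G) := by
  rw [hz_eq_sum e (map φ G) G.support (support_map_subset φ G), hz, map_sum]
  refine Finset.sum_congr rfl fun m _ => ?_
  rw [map_mul, map_C, hmon_map, coeff_map]

theorem hz_totalDegree (e : ℕ) (G : MvPolynomial (Fin n) R) (hG : G.totalDegree ≤ e) :
    (hz e G).totalDegree ≤ e := by
  refine totalDegree_finsetSum_le fun m hm => ?_
  have h1 : m.degree ≤ e := by
    rw [Finsupp.degree_apply]
    exact (le_totalDegree hm).trans hG
  refine (totalDegree_mul _ _).trans ?_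
  rw [totalDegree_C, zero_add, hmon]
  refine (totalDegree_mul _ _).trans ?_
  have h2 : (X 0 ^ (e - m.degree) : MvPolynomial (Fin (n + 1)) R).totalDegree ≤ e - m.degree := by
    rw [X_pow_eq_monomial]
    refine (totalDegree_monomial_le _ _).trans ?_
    rw [Finsupp.sum_single_index rfl]
    exact le_rfl
  have h3 : (∏ i, X i.succ ^ m i : MvPolynomial (Fin (n + 1)) R).totalDegree ≤ m.degree := by
    refine (totalDegree_finsetProd _ _).trans ?_
    rw [Finsupp.degree_eq_sum]
    refine Finset.sum_le_sum fun i _ => ?_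
    rw [X_pow_eq_monomial]
    refine (totalDegree_monomial_le _ _).trans ?_
    rw [Finsupp.sum_single_index rfl]
    exact le_rfl
  omega

theorem hz_eval {K : Type u} [Field K] (e : ℕ) (G : MvPolynomial (Fin n) K) (hG : G.totalDegree ≤ e)
    (c : Fin (n + 1) → K) (hc : c 0 ≠ 0) :
    eval c (hz e G) = c 0 ^ e * eval (fun i => c (Fin.succ i) / c 0) G := by
  rw [hz, map_sum, eval_eq', Finset.mul_sum]
  refine Finset.sum_congr rfl fun m hm => ?_
  have h1 : m.degree ≤ e := by
    rw [Finsupp.degree_apply]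
    exact (le_totalDegree hm).trans hG
  rw [map_mul, eval_C, hmon, map_mul, map_pow, eval_X, map_prod]
  have h2 : ∏ i, eval c (X (Fin.succ i) ^ m i : MvPolynomial (Fin (n + 1)) K) =
      c 0 ^ m.degree * ∏ i, (c (Fin.succ i) / c 0) ^ m i := by
    rw [Finsupp.degree_eq_sum, ← Finset.prod_pow_eq_pow_sum, ← Finset.prod_mul_distrib]
    refine Finset.prod_congr rfl fun i _ => ?_
    rw [map_pow, eval_X, ← mul_pow, mul_div_cancel₀ _ hc]
  rw [h2]
  have h3 : c 0 ^ e = c 0 ^ (e - m.degree) * c 0 ^ m.degree := by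
    rw [← pow_add]
    congr 1
    omega
  rw [h3]
  ring

end hz

section cone

variable {R S : Type u} [CommRing R] [CommRing S] {n : ℕ}

/-- The product of the denominators. -/
noncomputable def dd (f : RM R n) : MvPolynomial (Fin n) R := ∏ l, f.den l

/-- The numerators for the common denominator. -/
noncomputable def nn (f : RM R n) (i : Fin n) : MvPolynomial (Fin n) R :=
  f.num i * ∏ l ∈ Finset.univ.erase i, f.den l

/-- The cone. -/
noncomputable def cn (e : ℕ) (f : RM R n) : Fin (n + 1) → MvPolynomial (Fin (n + 1)) R :=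
  Fin.cons (α := fun _ => MvPolynomial (Fin (n + 1)) R) (hz e (dd f)) fun i => hz e (nn f i)

theorem dd_map (φ : R →+* S) (f : RM R n) : dd (f.map φ) = map φ (dd f) := by
  rw [dd, dd, map_prod]
  rfl

theorem nn_map (φ : R →+* S) (f : RM R n) (i : Fin n) : nn (f.map φ) i = map φ (nn f i) := by
  rw [nn, nn, map_mul, map_prod]
  rfl

theorem cn_map (φ : R →+* S) (e : ℕ) (f : RM R n) (i : Fin (n + 1)) :
    map φ (cn e f i) = cn e (f.map φ) i := by
  refine Fin.cases ?_ (fun i => ?_) i
  · rw [cn, cn, Fin.cons_zero, Fin.cons_zero, hz_map, dd_map]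
  · rw [cn, cn, Fin.cons_succ, Fin.cons_succ, hz_map, nn_map]

theorem dd_eq (f : RM R n) (i : Fin n) :
    dd f = f.den i * ∏ l ∈ Finset.univ.erase i, f.den l := by
  classical
  rw [dd, Finset.mul_prod_erase Finset.univ _ (Finset.mem_univ i)]

theorem cn_totalDegree (e : ℕ) (f : RM R n) (h0 : (dd f).totalDegree ≤ e)
    (h1 : ∀ i, (nn f i).totalDegree ≤ e) (i : Fin (n + 1)) : (cn e f i).totalDegree ≤ e := by
  refine Fin.cases ?_ (fun i => ?_) i
  · rw [cn, Fin.cons_zero]
    exact hz_totalDegree e _ h0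
  · rw [cn, Fin.cons_succ]
    exact hz_totalDegree e _ (h1 i)

variable {K : Type u} [Field K]

/-- A Frobenius point of the cone gives one of the map. -/
theorem frobPt_of_cone (e q : ℕ) (f : RM K n) (h0 : (dd f).totalDegree ≤ e)
    (h1 : ∀ i, (nn f i).totalDegree ≤ e) (c : Fin (n + 1) → K) (hc : c 0 ≠ 0)
    (hF : ∀ i, c i ^ q = eval c (cn e f i))
    (hd : eval (fun i => c (Fin.succ i) / c 0) (dd f) ≠ 0) :
    FrobPt f q fun i => c (Fin.succ i) / c 0 := by
  intro i
  have h2 := hF 0
  have h3 := hF i.succ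
  rw [cn, Fin.cons_zero, hz_eval e _ h0 c hc] at h2
  rw [cn, Fin.cons_succ, hz_eval e _ (h1 i) c hc] at h3
  set a : Fin n → K := fun i => c (Fin.succ i) / c 0 with ha
  have h4 : eval a (dd f) = eval a (f.den i) * eval a (∏ l ∈ Finset.univ.erase i, f.den l) := by
    rw [dd_eq f i, map_mul]
  have h5 : eval a (f.den i) ≠ 0 := by
    intro h
    rw [h4, h, zero_mul] at hd
    exact hd rfl
  have h6 : eval a (∏ l ∈ Finset.univ.erase i, f.den l) ≠ 0 := by
    intro h
    rw [h4, h, mul_zero] at hd
    exact hd rfl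
  refine ⟨h5, ?_⟩
  have h7 : eval a (nn f i) = eval a (f.num i) * eval a (∏ l ∈ Finset.univ.erase i, f.den l) := by
    rw [nn, map_mul]
  have h8 : a i ^ q * c 0 ^ q = c i.succ ^ q := by
    rw [← mul_pow, ha]
    simp only
    rw [div_mul_cancel₀ _ hc]
  rw [h2, h3, h4, h7] at h8
  have h9 : c 0 ^ e ≠ 0 := pow_ne_zero _ hc
  have h10 : (a i ^ q * eval a (f.den i) - eval a (f.num i)) *
      (c 0 ^ e * eval a (∏ l ∈ Finset.univ.erase i, f.den l)) = 0 := by
    linear_combination h8
  rcases mul_eq_zero.1 h10 with h | h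
  · exact sub_eq_zero.1 h
  · exact absurd h (mul_ne_zero h9 h6)

theorem eval_bind {σ τ : Type*} (c : τ → K) (F : σ → MvPolynomial τ K) (G : MvPolynomial σ K) :
    eval c (bind₁ F G) = eval (fun i => eval c (F i)) G := by
  have h0 : ∀ {ι : Type _} (c : ι → K) (G : MvPolynomial ι K), aeval c G = eval c G := by
    intro ι c G
    rw [← coe_aeval_eq_eval]
    rfl
  have h1 : ∀ (c : τ → K) (G : MvPolynomial τ K), aeval c G = eval c G := by
    intro c G
    rw [← coe_aeval_eq_eval]
    rfl
  have h := aeval_bind₁ (R := K) (S := K) c F G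
  rw [h1, h0] at h
  rw [h]
  congr 2

/-- Dominance: the iterated composition of the cone with `X 0 * hz e' G` is not zero. -/
theorem iter_ne_zero [Infinite K] (e e' : ℕ) (f : RM K n) (hden : ∀ i, f.den i ≠ 0)
    (hinj : Function.Injective f.comp) (h0 : (dd f).totalDegree ≤ e)
    (h1 : ∀ i, (nn f i).totalDegree ≤ e) (G : MvPolynomial (Fin n) K) (hG : G ≠ 0)
    (hG' : G.totalDegree ≤ e') (j : ℕ) :
    (bind₁ (cn e f))^[j] (X 0 * hz e' G) ≠ 0 := by
  have key : ∀ j : ℕ, ∃ Γ : MvPolynomial (Fin n) K, Γ ≠ 0 ∧ ∀ c : Fin (n + 1) → K, c 0 ≠ 0 →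
      eval (fun i => c (Fin.succ i) / c 0) Γ ≠ 0 →
      eval c ((bind₁ (cn e f))^[j] (X 0 * hz e' G)) ≠ 0 := by
    intro j
    induction j with
    | zero =>
      refine ⟨G, hG, fun c hc h => ?_⟩
      rw [Function.iterate_zero_apply, map_mul, eval_X, hz_eval e' G hG' c hc]
      exact mul_ne_zero hc (mul_ne_zero (pow_ne_zero _ hc) h)
    | succ j ih =>
      obtain ⟨Γ, hΓ, hj⟩ := ih
      obtain ⟨E, N, hE, hN, hE', hN'⟩ := compP K n f hden Γ
      have hinj' : Function.Injective (algebraMap (MvPolynomial (Fin n) K)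
          (FractionRing (MvPolynomial (Fin n) K))) :=
        IsFractionRing.injective (MvPolynomial (Fin n) K) (FractionRing (MvPolynomial (Fin n) K))
      have hN0 : N ≠ 0 := by
        rintro rfl
        rw [map_zero, eq_comm, mul_eq_zero] at hN
        rcases hN with h | h
        · exact hE (hinj' (h.trans (map_zero _).symm))
        · exact hΓ (hinj (h.trans (map_zero _).symm))
      refine ⟨dd f * N, mul_ne_zero (Finset.prod_ne_zero_iff.2 fun i _ => hden i) hN0,
        fun c hc h => ?_⟩
      rw [map_mul] at h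
      have hdd := left_ne_zero_of_mul h
      have hNc := right_ne_zero_of_mul h
      rw [Function.iterate_succ_apply', eval_bind]
      set a : Fin n → K := fun i => c (Fin.succ i) / c 0 with ha
      have hden' : ∀ i, eval a (f.den i) ≠ 0 := by
        intro i h2
        apply hdd
        rw [dd_eq f i, map_mul, h2, zero_mul]
      let b : Fin n → K := fun i => eval a (f.num i) / eval a (f.den i)
      have hnext : f.Next a b := fun i => ⟨hden' i, div_mul_cancel₀ _ (hden' i)⟩
      have hΓb : eval b Γ ≠ 0 := by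
        intro h2
        apply hNc
        rw [hN' a b hnext, h2, mul_zero]
      have hF0 : eval c (cn e f 0) = c 0 ^ e * eval a (dd f) := by
        rw [cn, Fin.cons_zero, hz_eval e _ h0 c hc]
      have hFs : ∀ i : Fin n, eval c (cn e f i.succ) = c 0 ^ e * eval a (nn f i) := by
        intro i
        rw [cn, Fin.cons_succ, hz_eval e _ (h1 i) c hc]
      have hF0' : eval c (cn e f 0) ≠ 0 := by
        rw [hF0]
        exact mul_ne_zero (pow_ne_zero _ hc) hdd
      refine hj _ hF0' ?_
      have hb : (fun i : Fin n => eval c (cn e f i.succ) / eval c (cn e f 0)) = b := by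
        funext i
        have h4 : eval a (dd f) = eval a (f.den i) * eval a (∏ l ∈ Finset.univ.erase i, f.den l) := by
          rw [dd_eq f i, map_mul]
        have h5 : eval a (∏ l ∈ Finset.univ.erase i, f.den l) ≠ 0 := by
          intro h2
          apply hdd
          rw [h4, h2, mul_zero]
        have h6 : eval a (nn f i) =
            eval a (f.num i) * eval a (∏ l ∈ Finset.univ.erase i, f.den l) := by
          rw [nn, map_mul]
        rw [hF0, hFs, h4, h6]
        show _ = eval a (f.num i) / eval a (f.den i)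
        have h7 : c 0 ^ e ≠ 0 := pow_ne_zero _ hc
        have h8 := hden' i
        rw [div_eq_div_iff (mul_ne_zero h7 (mul_ne_zero h8 h5)) h8]
        ring
      rw [hb]
      exact hΓb
  obtain ⟨Γ, hΓ, hj⟩ := key j
  intro hzero
  obtain ⟨a, ha⟩ : ∃ a : Fin n → K, eval a Γ ≠ 0 := by
    by_contra hcon
    push Not at hcon
    exact hΓ (MvPolynomial.funext fun a => by rw [hcon a, map_zero])
  have h2 := hj (Fin.cons 1 a) (by rw [Fin.cons_zero]; exact one_ne_zero) (by
    have h3 : (fun i : Fin n => (Fin.cons 1 a : Fin (n + 1) → K) (Fin.succ i) /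
        (Fin.cons 1 a : Fin (n + 1) → K) 0) = a := by
      funext i
      rw [Fin.cons_succ, Fin.cons_zero, div_one]
    rw [h3]
    exact ha)
  rw [hzero, map_zero] at h2
  exact h2 rfl

end cone

end Pool.Agent.ZDO
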