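import Pool.Agent.Lib.MP_16285c_ag.Spec

/-!
# The residue fields of the valuation rings of an algebraic extension of `ℚ`
-/

set_option autoImplicit false

namespace Pool.Agent.ZDO

universe u

/-- Every element of the residue field is algebraic over the prime field. -/
theorem residue_alg {k : Type u} [Field k] [CharZero k] [Algebra.IsAlgebraic ℚ k]
    (V : ValuationSubring k) (p : ℕ) [Fact p.Prime] [CharP (IsLocalRing.ResidueField V) p]
    (z : IsLocalRing.ResidueField V) : ∃ m, 1 ≤ m ∧ z ^ p ^ m = z := by
  obtain ⟨x, rfl⟩ := IsLocalRing.residue_surjective z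
  have h1 : IsAlgebraic ℤ (x : k) :=
    (IsFractionRing.isAlgebraic_iff ℤ ℚ k).2 (Algebra.IsAlgebraic.isAlgebraic (x : k))
  obtain ⟨f, hf0, hf⟩ := h1
  have hprim : Polynomial.aeval (x : k) f.primPart = 0 :=
    Polynomial.aeval_primPart_eq_zero hf0 hf
  have h2 : Polynomial.eval₂ (Int.castRingHom V) x f.primPart = 0 := by
    apply Subtype.ext
    have h3 : ((Polynomial.eval₂ (Int.castRingHom V) x f.primPart : V) : k) =
        Polynomial.eval₂ (Int.castRingHom k) (x : k) f.primPart := by
      have h4 := Polynomial.hom_eval₂ f.primPart (Int.castRingHom V) V.subtype x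
      have h5 : V.subtype.comp (Int.castRingHom V) = Int.castRingHom k := RingHom.ext_int _ _
      rw [h5] at h4
      exact h4
    rw [h3]
    exact hprim
  have h3 : Polynomial.eval₂ (Int.castRingHom (IsLocalRing.ResidueField V))
      (IsLocalRing.residue V x) f.primPart = 0 := by
    have h4 := Polynomial.hom_eval₂ f.primPart (Int.castRingHom V) (IsLocalRing.residue V) x
    have h5 : (IsLocalRing.residue V).comp (Int.castRingHom V) =
        Int.castRingHom (IsLocalRing.ResidueField V) := RingHom.ext_int _ _
    rw [h2, map_zero, h5] at h4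
    exact h4.symm
  let _ : Algebra (ZMod p) (IsLocalRing.ResidueField V) := ZMod.algebra _ p
  have h4 : IsAlgebraic (ZMod p) (IsLocalRing.residue V x) := by
    refine ⟨f.primPart.map (Int.castRingHom (ZMod p)), ?_, ?_⟩
    · intro h0
      have h5 : Polynomial.C (p : ℤ) ∣ f.primPart := by
        rw [Polynomial.C_dvd_iff_dvd_coeff]
        intro i
        have h6 := congrArg (fun g => Polynomial.coeff g i) h0
        simp only [Polynomial.coeff_map, Polynomial.coeff_zero] at h6
        exact (ZMod.intCast_zmod_eq_zero_iff_dvd _ p).1 h6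
      have h6 := (f.isPrimitive_primPart) (p : ℤ) h5
      have h7 := Int.isUnit_iff.1 h6
      have h8 := (Fact.out : p.Prime).two_le
      omega
    · rw [Polynomial.aeval_def, Polynomial.eval₂_map]
      have h5 : (algebraMap (ZMod p) (IsLocalRing.ResidueField V)).comp
          (Int.castRingHom (ZMod p)) = Int.castRingHom (IsLocalRing.ResidueField V) :=
        RingHom.ext_int _ _
      rw [h5]
      exact h3
  have h5 : FiniteDimensional (ZMod p)
      (IntermediateField.adjoin (ZMod p) {IsLocalRing.residue V x}) :=
    IntermediateField.adjoin.finiteDimensional h4.isIntegral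
  have h6 : Finite (IntermediateField.adjoin (ZMod p) {IsLocalRing.residue V x}) :=
    Module.finite_of_finite (ZMod p)
  have h7 := Fintype.ofFinite (IntermediateField.adjoin (ZMod p) {IsLocalRing.residue V x})
  have h8 : CharP (IntermediateField.adjoin (ZMod p) {IsLocalRing.residue V x}) p :=
    charP_of_injective_algebraMap (algebraMap (ZMod p) _).injective p
  obtain ⟨m, -, hm⟩ := FiniteField.card (IntermediateField.adjoin (ZMod p)
    {IsLocalRing.residue V x}) p
  refine ⟨m, m.2, ?_⟩
  have h9 := FiniteField.pow_card (⟨IsLocalRing.residue V x,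
    IntermediateField.mem_adjoin_simple_self (ZMod p) _⟩ :
      IntermediateField.adjoin (ZMod p) {IsLocalRing.residue V x})
  rw [hm] at h9
  exact congrArg Subtype.val h9

end Pool.Agent.ZDO
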