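import Pool.Agent.ZDO.Fmt
import Pool.Agent.Lib.MP_16285c_ag.Lift
import Pool.Agent.Lib.MP_16285c_ag.Place

/-!
# Closedness of orbits in the residue class of a Frobenius point

Let `V` be a valuation ring of the field `k` with residue characteristic `p`, `f` a rational map with coefficients in a finitely
generated subring of `V`, and `a` a Frobenius point of its reduction at which the Jacobian does not vanish.
There is `N ≥ 1` such that for every orbit `x` starting over `a` and every polynomial `G`: if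
`G (x j) ≠ 0` then `G (x (j + N p ^ J s)) ≠ 0` for some `J` and all `s`.
-/

set_option autoImplicit false

namespace Pool.Agent.ZDO

open MvPolynomial Pool.Agent.Lib.MP_16285c_ag

universe u

/-- A Noetherian subring of a valuation ring which contains given elements and is closed under the inverses of units. -/
theorem noethSub {k : Type u} [Field k] (V : ValuationSubring k) (T : Finset k)
    (hT : ∀ t ∈ T, t ∈ V) : ∃ A : Subring k, (∀ t ∈ T, t ∈ A) ∧ (∀ z ∈ A, z ∈ V) ∧
      IsNoetherianRing A ∧ ∀ z ∈ A, z ≠ 0 → z⁻¹ ∈ V → z⁻¹ ∈ A := by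
  obtain ⟨R₁, hR₁⟩ : ∃ R₁ : Subring k, R₁ = Subring.closure (T : Set k) := ⟨_, rfl⟩
  have hft : Algebra.FiniteType ℤ R₁ := by
    rw [hR₁]
    exact PlaceAux.ft T
  have hno : IsNoetherianRing R₁ := Algebra.FiniteType.isNoetherianRing ℤ R₁
  have hRV : ∀ r ∈ R₁, r ∈ V := by
    intro r hr
    rw [hR₁] at hr
    have h1 : Subring.closure (T : Set k) ≤ V.toSubring := Subring.closure_le.2 fun t ht => hT t ht
    exact h1 hr
  let P : Ideal R₁ := (IsLocalRing.maximalIdeal V).comap (inc V R₁ hRV)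
  have hP : P.IsPrime := Ideal.IsPrime.comap _
  have hPmem : ∀ r : R₁, r ∉ P → (r : k) ≠ 0 ∧ (r : k)⁻¹ ∈ V := by
    intro r hr
    have h1 : IsUnit (inc V R₁ hRV r) := by
      by_contra h
      exact hr ((IsLocalRing.mem_maximalIdeal _).2 h)
    obtain ⟨w, hw⟩ := h1.exists_right_inv
    have hw' : (r : k) * (w : k) = 1 := congrArg Subtype.val hw
    have h0 : (r : k) ≠ 0 := left_ne_zero_of_mul_eq_one hw'
    refine ⟨h0, ?_⟩
    have h2 : (r : k)⁻¹ = w := inv_eq_of_mul_eq_one_right hw'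
    rw [h2]
    exact w.2
  have hPun : ∀ r : R₁, r ∈ P → (r : k) ≠ 0 → (r : k)⁻¹ ∉ V := by
    intro r hr h0 hi
    have h1 : IsUnit (inc V R₁ hRV r) := by
      refine IsUnit.of_mul_eq_one (⟨(r : k)⁻¹, hi⟩ : V) ?_
      apply Subtype.ext
      exact mul_inv_cancel₀ h0
    exact (IsLocalRing.mem_maximalIdeal _).1 hr h1
  let A : Subring k := (LocalSubring.ofPrime R₁ P).toSubring
  have hloc : IsLocalization.AtPrime A P := inferInstance
  have hRA : R₁ ≤ A := LocalSubring.le_ofPrime R₁ P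
  have hrep : ∀ z : A, ∃ r s : R₁, s ∉ P ∧ (z : k) * (s : k) = r := by
    intro z
    obtain ⟨⟨r, s⟩, h⟩ := IsLocalization.surj P.primeCompl z
    exact ⟨r, s, s.2, congrArg Subtype.val h⟩
  have hinvA : ∀ r : R₁, r ∉ P → (r : k)⁻¹ ∈ A := by
    intro r hr
    have h1 : IsUnit (algebraMap R₁ A r) := IsLocalization.map_units A (⟨r, hr⟩ : P.primeCompl)
    obtain ⟨w, hw⟩ := h1.exists_right_inv
    have hw' : (r : k) * (w : k) = 1 := congrArg Subtype.val hw
    have h0 : (r : k) ≠ 0 := left_ne_zero_of_mul_eq_one hw'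
    have h2 : (r : k)⁻¹ = w := inv_eq_of_mul_eq_one_right hw'
    rw [h2]
    exact w.2
  refine ⟨A, ?_, ?_, ?_, ?_⟩
  · intro t ht
    refine hRA ?_
    rw [hR₁]
    exact Subring.subset_closure ht
  · intro z hz
    obtain ⟨r, s, hs, h⟩ := hrep ⟨z, hz⟩
    obtain ⟨h0, h1⟩ := hPmem s hs
    have h2 : z = (r : k) * (s : k)⁻¹ := by
      rw [eq_mul_inv_iff_mul_eq₀ h0]
      exact h
    rw [h2]
    exact V.mul_mem _ _ (hRV _ r.2) h1
  · exact IsLocalization.isNoetherianRing P.primeCompl A hno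
  · intro z hz h0 hi
    obtain ⟨r, s, hs, h⟩ := hrep ⟨z, hz⟩
    obtain ⟨hs0, hs1⟩ := hPmem s hs
    have hr0 : (r : k) ≠ 0 := by
      rw [← h]
      exact mul_ne_zero h0 hs0
    have hr : r ∉ P := by
      intro hrP
      refine hPun r hrP hr0 ?_
      have h2 : (r : k)⁻¹ = z⁻¹ * (s : k)⁻¹ := by
        rw [← h, mul_inv]
      rw [h2]
      exact V.mul_mem _ _ hi hs1
    have h2 : z⁻¹ = (s : k) * (r : k)⁻¹ := by
      have h3 : (z : k) * (s : k) = r := h
      rw [← h3]
      field_simp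
    rw [h2]
    exact A.mul_mem (hRA s.2) (hinvA r hr)

theorem eval_sub_mem {A : Type u} [CommRing A] {n : ℕ} (I : Ideal A) (x y : Fin n → A)
    (h : ∀ l, x l - y l ∈ I) (G : MvPolynomial (Fin n) A) : eval x G - eval y G ∈ I := by
  have h1 : (Ideal.Quotient.mk I).comp (eval x) = (Ideal.Quotient.mk I).comp (eval y) := by
    refine MvPolynomial.ringHom_ext (fun a => ?_) fun l => ?_
    · rw [RingHom.comp_apply, RingHom.comp_apply, eval_C, eval_C]
    · rw [RingHom.comp_apply, RingHom.comp_apply, eval_X, eval_X, Ideal.Quotient.eq]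
      exact h l
  rw [← Ideal.Quotient.eq]
  exact DFunLike.congr_fun h1 G

theorem rec_mul {A : Type u} [CommRing A] {n : ℕ} (𝔪 : Ideal A) (x : ℕ → Fin n → A) (N p : ℕ)
    (hrec : ∀ i j l, x (j + N * p ^ i) l - x j l ∈ 𝔪 ^ (i + 1)) (i j s : ℕ) (l : Fin n) :
    x (j + N * p ^ i * s) l - x j l ∈ 𝔪 ^ (i + 1) := by
  induction s with
  | zero =>
    rw [mul_zero, add_zero, sub_self]
    exact Ideal.zero_mem _
  | succ s ih =>
    have h1 := hrec i (j + N * p ^ i * s) l
    have h2 : x (j + N * p ^ i * (s + 1)) l - x j l =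
        (x (j + N * p ^ i * s + N * p ^ i) l - x (j + N * p ^ i * s) l) +
          (x (j + N * p ^ i * s) l - x j l) := by
      rw [mul_add, mul_one, ← add_assoc]
      ring
    rw [h2]
    exact Ideal.add_mem _ h1 ih

/-- Krull's intersection theorem. -/
theorem closed_ring {A : Type u} [CommRing A] [IsDomain A] [IsNoetherianRing A] {n : ℕ}
    (𝔪 : Ideal A) (hm : 𝔪 ≠ ⊤) (x : ℕ → Fin n → A) (N p : ℕ)
    (hrec : ∀ i j l, x (j + N * p ^ i) l - x j l ∈ 𝔪 ^ (i + 1)) (G : MvPolynomial (Fin n) A) (j : ℕ)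
    (hG : eval (x j) G ≠ 0) : ∃ J : ℕ, ∀ s : ℕ, eval (x (j + N * p ^ J * s)) G ≠ 0 := by
  by_contra hcon
  push Not at hcon
  apply hG
  have h1 : eval (x j) G ∈ ⨅ i : ℕ, 𝔪 ^ i := by
    rw [Ideal.mem_iInf]
    intro m
    obtain ⟨s, h0⟩ := hcon m
    have h2 := eval_sub_mem (𝔪 ^ (m + 1)) _ _ (rec_mul 𝔪 x N p hrec m j s) G
    rw [h0, zero_sub, neg_mem_iff] at h2
    exact Ideal.pow_le_pow_right (by omega) h2
  have h2 := (Ideal.iInf_pow_eq_bot_of_isDomain (I := 𝔪) hm).le h1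
  exact (Ideal.mem_bot).1 h2

theorem clear {k : Type u} [Field k] (A : Subring k) {n : ℕ}
    (G : MvPolynomial (Fin n) (Subfield.closure (A : Set k))) :
    ∃ (d : A) (G' : MvPolynomial (Fin n) A), d ≠ 0 ∧ ∀ y : Fin n → A,
      ((eval y G' : A) : k) = (d : k) * ((eval (fun l => (⟨(y l : k),
        Subfield.subset_closure (y l).2⟩ : Subfield.closure (A : Set k))) G :
          Subfield.closure (A : Set k)) : k) := by
  induction G using MvPolynomial.induction_on with
  | C c =>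
    obtain ⟨y, hy, z, hz, hc⟩ := Subfield.mem_closure_iff.1 c.2
    rw [Subring.closure_eq] at hy hz
    by_cases h0 : z = 0
    · refine ⟨1, 0, one_ne_zero, fun w => ?_⟩
      rw [eval_C, map_zero, ← hc, h0, div_zero, mul_zero]
      rfl
    · refine ⟨⟨z, hz⟩, C ⟨y, hy⟩, fun h => h0 (congrArg Subtype.val h), fun w => ?_⟩
      rw [eval_C, eval_C, ← hc]
      exact (mul_div_cancel₀ y h0).symm
  | add P Q hP hQ =>
    obtain ⟨d₁, P', h₁, h₁'⟩ := hP
    obtain ⟨d₂, Q', h₂, h₂'⟩ := hQ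
    refine ⟨d₁ * d₂, C d₂ * P' + C d₁ * Q', mul_ne_zero h₁ h₂, fun w => ?_⟩
    rw [map_add, map_mul, map_mul, eval_C, eval_C, map_add]
    push_cast
    rw [h₁', h₂']
    ring
  | mul_X P i hP =>
    obtain ⟨d, P', h, h'⟩ := hP
    refine ⟨d, P' * X i, h, fun w => ?_⟩
    rw [map_mul, map_mul, eval_X, eval_X]
    push_cast
    rw [h']
    ring

theorem closed_field {k : Type u} [Field k] (A : Subring k) [IsNoetherianRing A] {n : ℕ}
    (𝔪 : Ideal A) (hm : 𝔪 ≠ ⊤) (x : ℕ → Fin n → A) (N p : ℕ)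
    (hrec : ∀ i j l, x (j + N * p ^ i) l - x j l ∈ 𝔪 ^ (i + 1)) (G : MvPolynomial (Fin n) k) (j : ℕ)
    (hne : eval (fun l => (x j l : k)) G ≠ 0) :
    ∃ J : ℕ, ∀ s : ℕ, eval (fun l => (x (j + N * p ^ J * s) l : k)) G ≠ 0 := by
  classical
  let K : Subfield k := Subfield.closure (A : Set k)
  have hex : ∃ l : Module.Dual K k, l (eval (fun l => (x j l : k)) G) ≠ 0 := by
    by_contra h
    have h1 : ∀ l : Module.Dual K k, l (eval (fun l => (x j l : k)) G) = 0 := by
      intro l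
      by_contra h2
      exact h ⟨l, h2⟩
    exact hne ((Module.forall_dual_apply_eq_zero_iff K _).1 h1)
  obtain ⟨l, hl⟩ := hex
  let xK : ℕ → Fin n → K := fun j i => ⟨(x j i : k), Subfield.subset_closure (x j i).2⟩
  let G' : MvPolynomial (Fin n) K := ∑ s ∈ G.support, monomial s (l (coeff s G))
  have hev : ∀ j, eval (xK j) G' = l (eval (fun l => (x j l : k)) G) := by
    intro j
    conv_rhs => rw [MvPolynomial.eval_eq', map_sum]
    simp only [G', map_sum]
    refine Finset.sum_congr rfl fun s _ => ?_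
    rw [MvPolynomial.eval_monomial]
    have h4 : MvPolynomial.coeff s G * ∏ i, (x j i : k) ^ s i =
        (∏ i, (xK j i) ^ s i : K) • MvPolynomial.coeff s G := by
      rw [Subfield.smul_def, smul_eq_mul, mul_comm]
      push_cast
      rfl
    rw [h4, map_smul, smul_eq_mul, mul_comm, Finsupp.prod_fintype]
    intro i
    simp
  obtain ⟨d, G'', hd, h2⟩ := clear A G'
  have h3 : ∀ j, ((eval (x j) G'' : A) : k) = (d : k) * ((eval (xK j) G' : K) : k) := fun j => h2 (x j)
  have h4 : eval (x j) G'' ≠ 0 := by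
    intro h0
    have h5 := h3 j
    rw [h0, hev] at h5
    have h6 : (d : k) * ((l (eval (fun l => (x j l : k)) G) : K) : k) = 0 := by
      rw [← h5]
      rfl
    rcases mul_eq_zero.1 h6 with h7 | h7
    · exact hd (Subtype.ext h7)
    · exact hl (Subtype.ext h7)
  obtain ⟨J, hJ⟩ := closed_ring 𝔪 hm x N p hrec G'' j h4
  refine ⟨J, fun s h0 => hJ s (Subtype.ext ?_)⟩
  rw [h3, hev, h0, map_zero]
  simp

end Pool.Agent.ZDO
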