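import Pool.Agent.ZDO.Per

/-!
# Products of the Frobenius twists of a matrix over a finite field

If `M` is an invertible matrix over a field of characteristic `p` whose elements are algebraic over the prime field, then for some
`N ≥ 1` every product `M ^ (q ^ (j + N - 1)) ⋯ M ^ (q ^ j)` of `N` successive twists is `1`.
-/

set_option autoImplicit false

namespace Pool.Agent.ZDO

theorem Pr_congr {n : ℕ} {R : Type*} [CommRing R] (D : ℕ → Matrix (Fin n) (Fin n) R) (m : ℕ)
    (h : ∀ j, D (j + m) = D j) (j t : ℕ) : Pr D (j + m) t = Pr D j t := by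
  induction t with
  | zero => rfl
  | succ t ih =>
    rw [Pr, Pr, ih]
    congr 1
    rw [add_right_comm]
    exact h _

theorem Pr_mul {n : ℕ} {R : Type*} [CommRing R] (D : ℕ → Matrix (Fin n) (Fin n) R) (m : ℕ)
    (h : ∀ j, D (j + m) = D j) (j o : ℕ) : Pr D j (m * o) = Pr D j m ^ o := by
  induction o with
  | zero => rw [mul_zero, pow_zero, Pr]
  | succ o ih =>
    have h1 : ∀ t, Pr D (j + m * t) m = Pr D j m := by
      intro t
      induction t with
      | zero => rw [mul_zero, add_zero]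
      | succ t iht => rw [mul_add, mul_one, ← add_assoc, Pr_congr D m h, iht]
    rw [mul_add, mul_one, Pr_add, ih, h1, ← pow_succ']

theorem Pr_det {n : ℕ} {R : Type*} [Field R] (D : ℕ → Matrix (Fin n) (Fin n) R)
    (h : ∀ j, (D j).det ≠ 0) (j t : ℕ) : (Pr D j t).det ≠ 0 := by
  induction t with
  | zero =>
    rw [Pr, Matrix.det_one]
    exact one_ne_zero
  | succ t ih =>
    rw [Pr, Matrix.det_mul]
    exact mul_ne_zero (h _) ih

/-- A common exponent for finitely many algebraic elements. -/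
theorem exists_exponent {κ ι : Type*} [Field κ] (p : ℕ)
    (halg : ∀ z : κ, ∃ m, 1 ≤ m ∧ z ^ p ^ m = z) (t : Finset ι) (z : ι → κ) :
    ∃ m, 1 ≤ m ∧ ∀ i ∈ t, z i ^ p ^ m = z i := by
  classical
  have hmul : ∀ (w : κ) (m r : ℕ), w ^ p ^ m = w → w ^ p ^ (m * r) = w := by
    intro w m r hw
    induction r with
    | zero => rw [mul_zero, pow_zero, pow_one]
    | succ r ih => rw [mul_add, mul_one, pow_add, pow_mul, ih, hw]
  induction t using Finset.induction_on with
  | empty => exact ⟨1, le_rfl, fun i hi => absurd hi (Finset.notMem_empty i)⟩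
  | insert a t ha ih =>
    obtain ⟨m, hm, h⟩ := ih
    obtain ⟨m', hm', h'⟩ := halg (z a)
    refine ⟨m * m', Nat.mul_pos hm hm', fun i hi => ?_⟩
    rw [Finset.mem_insert] at hi
    rcases hi with rfl | hi
    · rw [mul_comm]
      exact hmul _ _ _ h'
    · exact hmul _ _ _ (h i hi)

theorem finMat {κ : Type*} [Field κ] (p s : ℕ) [Fact p.Prime] [CharP κ p]
    (halg : ∀ z : κ, ∃ m, 1 ≤ m ∧ z ^ p ^ m = z) {n : ℕ} (M₀ : Matrix (Fin n) (Fin n) κ)
    (hdet : M₀.det ≠ 0) (a : Fin n → κ) :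
    ∃ N, 1 ≤ N ∧ (∀ i j, a i ^ (p ^ s) ^ (j + N) = a i ^ (p ^ s) ^ j) ∧
      ∀ j, Pr (fun j => M₀.map fun z => z ^ (p ^ s) ^ j) j N = 1 := by
  classical
  obtain ⟨m, hm, hz⟩ := exists_exponent p halg (Finset.univ : Finset (Fin n × Fin n ⊕ Fin n))
    (Sum.elim (fun x => M₀ x.1 x.2) a)
  have hzM : ∀ i j, M₀ i j ^ p ^ m = M₀ i j := fun i j => hz (Sum.inl (i, j)) (Finset.mem_univ _)
  have hza : ∀ i, a i ^ p ^ m = a i := fun i => hz (Sum.inr i) (Finset.mem_univ _)
  have hpow : ∀ (w : κ) (r : ℕ), w ^ p ^ m = w → w ^ p ^ (m * r) = w := by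
    intro w r hw
    induction r with
    | zero => rw [mul_zero, pow_zero, pow_one]
    | succ r ih => rw [mul_add, mul_one, pow_add, pow_mul, ih, hw]
  have hq : ∀ (w : κ) (j r : ℕ), w ^ p ^ m = w → w ^ (p ^ s) ^ (j + m * r) = w ^ (p ^ s) ^ j := by
    intro w j r hw
    rw [pow_add, mul_comm, pow_mul]
    congr 1
    rw [← pow_mul, mul_left_comm]
    exact hpow w _ hw
  -- the finite field
  let F : Subfield κ := (iterateFrobenius κ p m).eqLocusField (RingHom.id κ)
  have hF : ∀ z : κ, z ∈ F ↔ z ^ p ^ m = z := by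
    intro z
    show iterateFrobenius κ p m z = RingHom.id κ z ↔ _
    rw [iterateFrobenius_def, RingHom.id_apply]
  have hfin : Finite F := by
    have h1 : ((F : Set κ)).Finite := by
      have h2 : (Polynomial.X ^ p ^ m - Polynomial.X : Polynomial κ) ≠ 0 :=
        FiniteField.X_pow_card_pow_sub_X_ne_zero κ (by omega) (Fact.out : p.Prime).one_lt
      refine ((Polynomial.X ^ p ^ m - Polynomial.X : Polynomial κ).roots.toFinset.finite_toSet).subset ?_
      intro z hz
      rw [Finset.mem_coe, Multiset.mem_toFinset, Polynomial.mem_roots h2, Polynomial.IsRoot.def,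
        Polynomial.eval_sub, Polynomial.eval_pow, Polynomial.eval_X, (hF z).1 hz, sub_self]
    exact h1
  have hmem : ∀ j i l, M₀ i l ^ (p ^ s) ^ j ∈ F := fun j i l => F.pow_mem ((hF _).2 (hzM i l)) _
  let M' : ℕ → Matrix (Fin n) (Fin n) F := fun j => Matrix.of fun i l => ⟨_, hmem j i l⟩
  have hM' : ∀ j, (M' j).map F.subtype = M₀.map fun z => z ^ (p ^ s) ^ j := by
    intro j
    ext i l
    rfl
  have hper : ∀ j, M' (j + m) = M' j := by
    intro j
    ext i l
    have h1 := hq (M₀ i l) j 1 (hzM i l)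
    rw [mul_one] at h1
    exact h1
  have hdet' : ∀ j, (M' j).det ≠ 0 := by
    intro j h0
    have h1 : F.subtype (M' j).det = 0 := by rw [h0, map_zero]
    rw [RingHom.map_det, RingHom.mapMatrix_apply, hM'] at h1
    have h2 : (M₀.map fun z => z ^ (p ^ s) ^ j) = (iterateFrobenius κ p (s * j)).mapMatrix M₀ := by
      ext i l
      rw [RingHom.mapMatrix_apply, Matrix.map_apply, Matrix.map_apply, iterateFrobenius_def,
        ← pow_mul]
    rw [h2, ← RingHom.map_det, map_eq_zero] at h1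
    exact hdet h1
  have hunit : ∀ j, IsUnit (Pr M' j m) := fun j =>
    (Matrix.isUnit_iff_isUnit_det _).2 (isUnit_iff_ne_zero.2 (Pr_det M' hdet' j m))
  let o : ℕ := Nat.card (Matrix (Fin n) (Fin n) F)ˣ
  have ho : 1 ≤ o := Nat.card_pos
  have hone : ∀ j, Pr M' j (m * o) = 1 := by
    intro j
    rw [Pr_mul M' m hper]
    obtain ⟨u, hu⟩ := hunit j
    rw [← hu, ← Units.val_pow_eq_pow_val, pow_card_eq_one', Units.val_one]
  refine ⟨m * o, Nat.mul_pos hm ho, fun i j => hq _ _ _ (hza i), fun j => ?_⟩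
  have h1 := Pr_map F.subtype M' j (m * o)
  rw [hone, Matrix.map_one _ (map_zero _) (map_one _)] at h1
  rw [h1]
  congr 1

end Pool.Agent.ZDO
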