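import Mathlib

/-!
# Standard monomials modulo `X i ^ q - F i`

Let `F i` be polynomials in `n` variables of total degree smaller than `q`. The polynomials
`g m = ∏ i, (X i ^ q - F i) ^ (m i / q) * X i ^ (m i % q)` form a basis of the polynomial ring. So the ideal
generated by the `X i ^ q - F i` contains no nonzero polynomial of total degree smaller than `q`, and
the quotient has dimension at most `q ^ n`.
-/

set_option autoImplicit false

namespace Pool.Agent.ZDO

open MvPolynomial

variable {κ : Type*} [Field κ] {n : ℕ}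

/-- All monomials of `H` have total degree smaller than `D`. -/
def Lt (D : ℕ) (H : MvPolynomial (Fin n) κ) : Prop := ∀ m : Fin n →₀ ℕ, D ≤ m.degree → coeff m H = 0

theorem Lt.zero (D : ℕ) : Lt D (0 : MvPolynomial (Fin n) κ) := fun m _ => coeff_zero m

theorem Lt.add {D : ℕ} {G H : MvPolynomial (Fin n) κ} (hG : Lt D G) (hH : Lt D H) : Lt D (G + H) := by
  intro m hm
  rw [coeff_add, hG m hm, hH m hm, add_zero]

theorem Lt.neg {D : ℕ} {G : MvPolynomial (Fin n) κ} (hG : Lt D G) : Lt D (-G) := by
  intro m hm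
  rw [coeff_neg, hG m hm, neg_zero]

theorem Lt.mono {D E : ℕ} {G : MvPolynomial (Fin n) κ} (hG : Lt D G) (h : D ≤ E) : Lt E G :=
  fun m hm => hG m (h.trans hm)

theorem Lt.mul {D E : ℕ} {G H : MvPolynomial (Fin n) κ} (hG : Lt (D + 1) G) (hH : Lt E H) :
    Lt (D + E) (G * H) := by
  classical
  intro m hm
  rw [coeff_mul]
  refine Finset.sum_eq_zero fun x hx => ?_
  rw [Finset.HasAntidiagonal.mem_antidiagonal] at hx
  by_cases h : D + 1 ≤ x.1.degree
  · rw [hG _ h, zero_mul]
  · rw [hH x.2, mul_zero]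
    have : m.degree = x.1.degree + x.2.degree := by rw [← hx, map_add]
    omega

theorem Lt.of_totalDegree {D : ℕ} {G : MvPolynomial (Fin n) κ} (h : G.totalDegree < D) : Lt D G := by
  intro m hm
  apply coeff_eq_zero_of_totalDegree_lt
  rw [Finsupp.degree_apply] at hm
  omega

/-- `G` has the leading term `X ^ m` in the total degree: the other monomials have smaller degree. -/
def Top (m : Fin n →₀ ℕ) (G : MvPolynomial (Fin n) κ) : Prop := Lt m.degree (G - monomial m 1)

theorem Top.lt {m : Fin n →₀ ℕ} {G : MvPolynomial (Fin n) κ} (h : Top m G) :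
    Lt (m.degree + 1) G := by
  classical
  intro k hk
  have h1 := h k (by omega)
  rw [coeff_sub, coeff_monomial, if_neg, sub_zero] at h1
  · exact h1
  · rintro rfl
    omega

theorem Top.monomial (m : Fin n →₀ ℕ) : Top m (MvPolynomial.monomial m (1 : κ)) := by
  rw [Top, sub_self]
  exact Lt.zero _

theorem Top.mul {m k : Fin n →₀ ℕ} {G H : MvPolynomial (Fin n) κ} (hG : Top m G) (hH : Top k H) :
    Top (m + k) (G * H) := by
  have h1 : MvPolynomial.monomial (m + k) (1 : κ) =
      MvPolynomial.monomial m 1 * MvPolynomial.monomial k 1 := by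
    rw [monomial_mul, one_mul]
  have h2 : G * H - MvPolynomial.monomial (m + k) (1 : κ) =
      G * (H - MvPolynomial.monomial k 1) +
        MvPolynomial.monomial k 1 * (G - MvPolynomial.monomial m 1) := by
    rw [h1]; ring
  rw [Top, h2, map_add]
  refine Lt.add (hG.lt.mul hH) ?_
  rw [add_comm m.degree]
  exact (Top.monomial k).lt.mul hG

theorem Top.pow {m : Fin n →₀ ℕ} {G : MvPolynomial (Fin n) κ} (hG : Top m G) (a : ℕ) :
    Top (a • m) (G ^ a) := by
  induction a with
  | zero =>
    rw [zero_smul, pow_zero]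
    exact Top.monomial 0
  | succ a ih =>
    rw [succ_nsmul, pow_succ]
    exact ih.mul hG

theorem Top.prod {ι : Type*} (s : Finset ι) (m : ι → Fin n →₀ ℕ) (G : ι → MvPolynomial (Fin n) κ)
    (h : ∀ i ∈ s, Top (m i) (G i)) : Top (∑ i ∈ s, m i) (∏ i ∈ s, G i) := by
  classical
  induction s using Finset.induction_on with
  | empty =>
    rw [Finset.sum_empty, Finset.prod_empty]
    exact Top.monomial 0
  | insert a s ha ih =>
    rw [Finset.sum_insert ha, Finset.prod_insert ha]
    exact (h a (Finset.mem_insert_self _ _)).mul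
      (ih fun i hi => h i (Finset.mem_insert_of_mem hi))

/-- The basis. -/
noncomputable def gg (q : ℕ) (F : Fin n → MvPolynomial (Fin n) κ) (m : Fin n →₀ ℕ) :
    MvPolynomial (Fin n) κ :=
  ∏ i, (X i ^ q - F i) ^ (m i / q) * X i ^ (m i % q)

theorem top_gg {q : ℕ} {F : Fin n → MvPolynomial (Fin n) κ} (hF : ∀ i, (F i).totalDegree < q)
    (m : Fin n →₀ ℕ) : Top m (gg q F m) := by
  have h1 : ∀ i, Top (Finsupp.single i q) (X i ^ q - F i : MvPolynomial (Fin n) κ) := by
    intro i
    rw [Top, X_pow_eq_monomial, sub_sub_cancel_left]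
    refine (Lt.of_totalDegree ?_).neg
    rw [Finsupp.degree_single]
    exact hF i
  have h2 : ∀ i, Top (Finsupp.single i (m i))
      ((X i ^ q - F i) ^ (m i / q) * X i ^ (m i % q) : MvPolynomial (Fin n) κ) := by
    intro i
    have h3 : Finsupp.single i (m i) =
        (m i / q) • Finsupp.single i q + (m i % q) • Finsupp.single i 1 := by
      rw [Finsupp.smul_single, Finsupp.smul_single, ← Finsupp.single_add, smul_eq_mul,
        smul_eq_mul, mul_one, Nat.div_add_mod']
    rw [h3]
    exact ((h1 i).pow _).mul ((Top.monomial (Finsupp.single i 1)).pow _)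
  have h3 := Top.prod Finset.univ (fun i => Finsupp.single i (m i)) _ fun i _ => h2 i
  rw [Finsupp.univ_sum_single] at h3
  exact h3

/-- The linear map `X ^ m ↦ g m`. -/
noncomputable def Ph (q : ℕ) (F : Fin n → MvPolynomial (Fin n) κ) :
    MvPolynomial (Fin n) κ →ₗ[κ] MvPolynomial (Fin n) κ :=
  (basisMonomials (Fin n) κ).constr κ (gg q F)

theorem ph_monomial (q : ℕ) (F : Fin n → MvPolynomial (Fin n) κ) (m : Fin n →₀ ℕ) (c : κ) :
    Ph q F (monomial m c) = c • gg q F m := by
  have h1 : (monomial m c : MvPolynomial (Fin n) κ) = c • basisMonomials (Fin n) κ m := by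
    rw [coe_basisMonomials, smul_monomial, smul_eq_mul, mul_one]
  rw [h1, map_smul, Ph, Module.Basis.constr_basis]

theorem ph_inj {q : ℕ} {F : Fin n → MvPolynomial (Fin n) κ} (hF : ∀ i, (F i).totalDegree < q) :
    Function.Injective (Ph q F) := by
  classical
  rw [injective_iff_map_eq_zero]
  intro H hH
  by_contra h0
  obtain ⟨m₀, hm₀, hmax⟩ := Finset.exists_max_image H.support (fun m => m.degree)
    (support_nonempty.2 h0)
  have h1 : Ph q F H = ∑ m ∈ H.support, coeff m H • gg q F m := by
    conv_lhs => rw [H.as_sum]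
    rw [map_sum]
    exact Finset.sum_congr rfl fun m _ => ph_monomial q F m _
  have h2 := congrArg (coeff m₀) h1
  rw [hH, coeff_zero, coeff_sum, Finset.sum_eq_single m₀] at h2
  · have h3 := top_gg hF m₀ m₀ le_rfl
    rw [coeff_sub, coeff_monomial, if_pos rfl, sub_eq_zero] at h3
    rw [coeff_smul, h3, smul_eq_mul, mul_one] at h2
    exact mem_support_iff.1 hm₀ h2.symm
  · intro m hm hne
    have h3 := top_gg hF m m₀ (hmax m hm)
    rw [coeff_sub, coeff_monomial, if_neg hne, sub_zero] at h3
    rw [coeff_smul, h3, smul_zero]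
  · intro h
    exact absurd hm₀ h

theorem ph_surj_aux {q : ℕ} {F : Fin n → MvPolynomial (Fin n) κ} (hF : ∀ i, (F i).totalDegree < q) :
    ∀ D : ℕ, ∀ H : MvPolynomial (Fin n) κ, Lt D H → ∃ G, Ph q F G = H := by
  intro D
  induction D with
  | zero =>
    intro H hH
    refine ⟨0, ?_⟩
    rw [map_zero]
    ext m
    rw [coeff_zero, hH m (Nat.zero_le _)]
  | succ D ih =>
    intro H hH
    have h1 : ∀ m ∈ H.support, ∃ G, Ph q F G = monomial m (coeff m H) := by
      intro m hm
      have hmD : m.degree ≤ D := by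
        by_contra h
        exact mem_support_iff.1 hm (hH m (by omega))
      obtain ⟨G, hG⟩ := ih _ ((top_gg hF m).mono hmD)
      refine ⟨coeff m H • (monomial m 1 - G), ?_⟩
      rw [map_smul, map_sub, hG, ph_monomial, one_smul, sub_sub_cancel, smul_monomial, smul_eq_mul,
        mul_one]
    choose! G hG using h1
    refine ⟨∑ m ∈ H.support, G m, ?_⟩
    rw [map_sum, Finset.sum_congr rfl hG]
    exact (H.as_sum).symm

theorem ph_surj {q : ℕ} {F : Fin n → MvPolynomial (Fin n) κ} (hF : ∀ i, (F i).totalDegree < q) :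
    Function.Surjective (Ph q F) := fun H =>
  ph_surj_aux hF (H.totalDegree + 1) H (Lt.of_totalDegree (Nat.lt_succ_self _))

theorem gg_add {q : ℕ} (hq : 0 < q) (F : Fin n → MvPolynomial (Fin n) κ) (m : Fin n →₀ ℕ) (i : Fin n) :
    gg q F (m + Finsupp.single i q) = (X i ^ q - F i) * gg q F m := by
  classical
  rw [gg, gg, ← Finset.mul_prod_erase Finset.univ _ (Finset.mem_univ i),
    ← Finset.mul_prod_erase Finset.univ (fun j => (X j ^ q - F j) ^ (m j / q) * X j ^ (m j % q))
      (Finset.mem_univ i)]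
  have h1 : (m + Finsupp.single i q) i = m i + q := by
    rw [Finsupp.add_apply, Finsupp.single_eq_same]
  rw [h1, Nat.add_div_right _ hq, Nat.add_mod_right, pow_succ]
  have h2 : ∏ j ∈ Finset.univ.erase i, ((X j ^ q - F j) ^ ((m + Finsupp.single i q) j / q) *
        X j ^ ((m + Finsupp.single i q) j % q)) =
      ∏ j ∈ Finset.univ.erase i, ((X j ^ q - F j) ^ (m j / q) * X j ^ (m j % q)) := by
    refine Finset.prod_congr rfl fun j hj => ?_
    have : (m + Finsupp.single i q) j = m j := by
      rw [Finsupp.add_apply, Finsupp.single_eq_of_ne (Finset.ne_of_mem_erase hj), add_zero]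
    rw [this]
  rw [h2]
  ring

theorem ph_mul {q : ℕ} (hq : 0 < q) (F : Fin n → MvPolynomial (Fin n) κ) (H : MvPolynomial (Fin n) κ)
    (i : Fin n) : Ph q F (X i ^ q * H) = (X i ^ q - F i) * Ph q F H := by
  induction H using MvPolynomial.induction_on' with
  | monomial m c =>
    have h1 : (X i ^ q * monomial m c : MvPolynomial (Fin n) κ) =
        monomial (m + Finsupp.single i q) c := by
      rw [X_pow_eq_monomial, monomial_mul, one_mul, add_comm]
    rw [h1, ph_monomial, ph_monomial, gg_add hq, mul_smul_comm]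
  | add p r hp hr => rw [mul_add, map_add, map_add, hp, hr, mul_add]

/-- The ideal of the `X i ^ q - F i`. -/
noncomputable def II (q : ℕ) (F : Fin n → MvPolynomial (Fin n) κ) : Ideal (MvPolynomial (Fin n) κ) :=
  Ideal.span (Set.range fun i => X i ^ q - F i)

theorem gg_small {q : ℕ} (F : Fin n → MvPolynomial (Fin n) κ) (m : Fin n →₀ ℕ)
    (hm : ∀ i, m i < q) : gg q F m = monomial m 1 := by
  rw [gg]
  have h1 : ∀ i, ((X i ^ q - F i) ^ (m i / q) * X i ^ (m i % q) : MvPolynomial (Fin n) κ) =
      X i ^ (m i) := by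
    intro i
    rw [Nat.div_eq_of_lt (hm i), pow_zero, one_mul, Nat.mod_eq_of_lt (hm i)]
  rw [Finset.prod_congr rfl fun i _ => h1 i, monomial_eq, C_1, one_mul,
    Finsupp.prod_fintype _ _ fun i => pow_zero _]

theorem gg_big {q : ℕ} (F : Fin n → MvPolynomial (Fin n) κ) (m : Fin n →₀ ℕ) (i : Fin n)
    (hq : 0 < q) (hm : q ≤ m i) : gg q F m ∈ II q F := by
  classical
  rw [gg, ← Finset.mul_prod_erase Finset.univ _ (Finset.mem_univ i)]
  refine Ideal.mul_mem_right _ _ (Ideal.mul_mem_right _ _ ?_)
  have h1 : 0 < m i / q := Nat.div_pos hm hq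
  exact Ideal.pow_mem_of_mem _ (Ideal.subset_span (Set.mem_range_self i)) _ h1

/-- The ideal contains no nonzero polynomial of degree smaller than `q`. -/
theorem small_eq_zero {q : ℕ} {F : Fin n → MvPolynomial (Fin n) κ}
    (hF : ∀ i, (F i).totalDegree < q) (hq : 0 < q) (H : MvPolynomial (Fin n) κ)
    (hH : H.totalDegree < q) (hI : H ∈ II q F) : H = 0 := by
  classical
  have hlt : Lt q H := Lt.of_totalDegree hH
  have hdeg : ∀ m ∈ H.support, ∀ i, m i < q := by
    intro m hm i
    by_contra h
    refine mem_support_iff.1 hm (hlt m ?_)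
    have : m i ≤ m.degree := by
      rw [Finsupp.degree_apply]
      by_cases h1 : i ∈ m.support
      · exact Finset.single_le_sum (f := fun j => m j) (fun _ _ => Nat.zero_le _) h1
      · rw [Finsupp.notMem_support_iff.1 h1]
        exact Nat.zero_le _
    omega
  have h1 : Ph q F H = H := by
    conv_lhs => rw [H.as_sum]
    conv_rhs => rw [H.as_sum]
    rw [map_sum]
    refine Finset.sum_congr rfl fun m hm => ?_
    rw [ph_monomial, gg_small F m (hdeg m hm), smul_monomial, smul_eq_mul, mul_one]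
  rw [II, Ideal.mem_span_range_iff_exists_fun] at hI
  obtain ⟨c, hc⟩ := hI
  choose w hw using fun i => ph_surj hF (c i)
  have h2 : Ph q F (∑ i, X i ^ q * w i) = H := by
    rw [map_sum, ← hc]
    refine Finset.sum_congr rfl fun i _ => ?_
    rw [ph_mul hq, hw, mul_comm]
  have h3 : H = ∑ i, X i ^ q * w i := ph_inj hF (h1.trans h2.symm)
  ext m
  rw [coeff_zero]
  by_contra h4
  have h5 := hdeg m (mem_support_iff.2 h4)
  apply h4
  rw [h3, coeff_sum]
  refine Finset.sum_eq_zero fun i _ => ?_
  rw [X_pow_eq_monomial, coeff_monomial_mul', if_neg]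
  rw [Finsupp.single_le_iff]
  exact not_le.2 (h5 i)

/-- The quotient is spanned by the standard monomials. -/
theorem span_std {q : ℕ} {F : Fin n → MvPolynomial (Fin n) κ} (hF : ∀ i, (F i).totalDegree < q)
    (hq : 0 < q) :
    Submodule.span κ (Set.range fun e : Fin n → Fin q =>
      Ideal.Quotient.mk (II q F) (∏ i, X i ^ (e i : ℕ))) = ⊤ := by
  classical
  rw [eq_top_iff]
  rintro x -
  obtain ⟨G, rfl⟩ := Ideal.Quotient.mk_surjective x
  obtain ⟨H, rfl⟩ := ph_surj hF G
  have h1 : Ph q F H = ∑ m ∈ H.support, coeff m H • gg q F m := by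
    conv_lhs => rw [H.as_sum]
    rw [map_sum]
    exact Finset.sum_congr rfl fun m _ => ph_monomial q F m _
  rw [h1, map_sum]
  refine Submodule.sum_mem _ fun m _ => ?_
  have h2 : Ideal.Quotient.mk (II q F) (coeff m H • gg q F m) =
      coeff m H • Ideal.Quotient.mk (II q F) (gg q F m) := rfl
  rw [h2]
  refine Submodule.smul_mem _ _ ?_
  by_cases h3 : ∀ i, m i < q
  · rw [gg_small F m h3]
    refine Submodule.subset_span ⟨fun i => ⟨m i, h3 i⟩, ?_⟩
    simp only
    rw [monomial_eq, C_1, one_mul, Finsupp.prod_fintype _ _ fun i => pow_zero _]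
  · push Not at h3
    obtain ⟨i, hi⟩ := h3
    rw [Ideal.Quotient.eq_zero_iff_mem.2 (gg_big F m i hq hi)]
    exact Submodule.zero_mem _

theorem finite_quot {q : ℕ} {F : Fin n → MvPolynomial (Fin n) κ} (hF : ∀ i, (F i).totalDegree < q)
    (hq : 0 < q) : Module.Finite κ (MvPolynomial (Fin n) κ ⧸ II q F) :=
  ⟨⟨(Set.range fun e : Fin n → Fin q =>
      Ideal.Quotient.mk (II q F) (∏ i, X i ^ (e i : ℕ))).toFinite.toFinset, by
    rw [Set.Finite.coe_toFinset]
    exact span_std hF hq⟩⟩

theorem finrank_quot {q : ℕ} {F : Fin n → MvPolynomial (Fin n) κ} (hF : ∀ i, (F i).totalDegree < q)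
    (hq : 0 < q) : Module.finrank κ (MvPolynomial (Fin n) κ ⧸ II q F) ≤ q ^ n := by
  have h1 := finrank_range_le_card (R := κ) (fun e : Fin n → Fin q =>
      Ideal.Quotient.mk (II q F) (∏ i, X i ^ (e i : ℕ)))
  rw [Set.finrank, span_std hF hq, finrank_top, Fintype.card_fun, Fintype.card_fin,
    Fintype.card_fin] at h1
  exact h1

end Pool.Agent.ZDO
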